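import Pool.Agent.Q270.EW.Pre

/-!
Project EW (helper270): primes of a residue class in short cells, and the separation property.
-/

set_option autoImplicit false

namespace Pool.Agent.Q270.EW

open Finset Filter Topology Pool.Agent.Q270.EA

/-- the primes of a residue class in a cell have positive proportion -/
lemma cellAP (m : ℕ) [NeZero m] (a : ZMod m) (ha : IsUnit a) (δ : ℝ) (hδ : 0 < δ) (hδ1 : δ ≤ 1) :
    ∃ ρ : ℝ, 0 < ρ ∧ ∃ J : ℕ, ∀ j : ℕ, J ≤ j → ∀ y : ℝ,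
    (2 : ℝ) ^ j / 2 ≤ y → (1 + δ) * y ≤ 2 ^ j →
    ρ * (PD j).card ≤ ((PD j).filter (fun p : ℕ => (p : ZMod m) = a ∧ y < p ∧ (p : ℝ) ≤ (1 + δ) * y)).card := by
  classical
  obtain ⟨c₀, C, j₀, hc₀, hC0, hj₀, hch⟩ := Pool.Agent.Q148.EA.t_CHEB
  have hpnt := Pool.Agent.Cov.PNT.pnt_residueClass ha
  obtain ⟨c, hc⟩ : ∃ c : ℝ, c = ((m.totient : ℝ))⁻¹ := ⟨_, rfl⟩
  have hφ : (0 : ℝ) < m.totient := by exact_mod_cast Nat.totient_pos.mpr (NeZero.pos m)
  have hc0 : 0 < c := by rw [hc]; positivity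
  rw [← hc] at hpnt
  obtain ⟨S, hSd⟩ : ∃ S : ℝ → ℝ, S = fun x => ∑ k ∈ Finset.Icc 1 ⌊x⌋₊, ArithmeticFunction.vonMangoldt.residueClass a k :=
    ⟨_, rfl⟩
  have e1 : ∀ᶠ x : ℝ in atTop, |S x / x - c| < c * (δ / 8) := by
    have := Metric.tendsto_nhds.1 hpnt (c * (δ / 8)) (by positivity)
    rw [hSd]
    simpa [Real.dist_eq] using this
  obtain ⟨C₁, hC₁⟩ := Chebyshev.psi_sub_theta_le_mul_sqrt
  have e2 : ∀ᶠ x : ℝ in atTop, |C₁| * Real.sqrt x ≤ c * δ / 8 * x := by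
    have h2 : Tendsto (fun x : ℝ => |C₁| * (Real.sqrt x)⁻¹) atTop (𝓝 0) := by
      have := (tendsto_inv_atTop_zero.comp Real.tendsto_sqrt_atTop).const_mul |C₁|
      simpa [Function.comp_def] using this
    filter_upwards [h2.eventually (gt_mem_nhds (show (0 : ℝ) < c * δ / 8 by positivity)), eventually_gt_atTop 0] with x hx hx0
    have hs : 0 < Real.sqrt x := Real.sqrt_pos.mpr hx0
    have hx2 : Real.sqrt x * Real.sqrt x = x := Real.mul_self_sqrt hx0.le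
    rw [← div_eq_mul_inv, div_lt_iff₀ hs] at hx
    calc |C₁| * Real.sqrt x ≤ c * δ / 8 * Real.sqrt x * Real.sqrt x := mul_le_mul_of_nonneg_right hx.le hs.le
      _ = c * δ / 8 * (Real.sqrt x * Real.sqrt x) := by ring
      _ = c * δ / 8 * x := by rw [hx2]
  obtain ⟨X, hX⟩ := eventually_atTop.1 (e1.and e2)
  obtain ⟨J₁, hJ₁⟩ : ∃ J₁ : ℕ, X < 2 ^ J₁ := pow_unbounded_of_one_lt _ (by norm_num)
  refine ⟨c * δ / (32 * C), by positivity, j₀ + J₁ + 4, fun j hj y hy1 hy2 => ?_⟩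
  have hl2 : 0 < Real.log 2 := Real.log_pos (by norm_num)
  have hj4 : (4 : ℝ) ≤ j := by exact_mod_cast (by omega : 4 ≤ j)
  have hpj : (0 : ℝ) < 2 ^ j := by positivity
  have hy0 : 0 < y := by linarith
  have hXy : X ≤ y := by
    have h1 : (2 : ℝ) ^ (J₁ + 1) ≤ 2 ^ j := pow_le_pow_right₀ (by norm_num) (by omega)
    rw [pow_succ] at h1
    linarith
  have hy1' : 0 < (1 + δ) * y := by positivity
  have hyy : y ≤ (1 + δ) * y := by nlinarith
  have a1 := abs_lt.1 (hX y hXy).1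
  have a2 := abs_lt.1 (hX ((1 + δ) * y) (by linarith)).1
  have a3 := (hX ((1 + δ) * y) (by linarith)).2
  have b1 : S y ≤ (c + c * (δ / 8)) * y := by
    have := a1.2
    rw [sub_lt_iff_lt_add, div_lt_iff₀ hy0] at this
    linarith
  have b2 : (c - c * (δ / 8)) * ((1 + δ) * y) ≤ S ((1 + δ) * y) := by
    have := a2.1
    rw [lt_sub_iff_add_lt, lt_div_iff₀ hy1'] at this
    linarith
  have b3 : c * δ / 2 * y ≤ S ((1 + δ) * y) - S y := by
    have h1 : c * (δ * (δ * y)) ≤ c * (1 * (δ * y)) := by gcongr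
    nlinarith
  -- the sum over the cell
  obtain ⟨T, hT⟩ : ∃ T, T = (PD j).filter (fun p : ℕ => (p : ZMod m) = a ∧ y < p ∧ (p : ℝ) ≤ (1 + δ) * y) := ⟨_, rfl⟩
  have hmemT : ∀ p : ℕ, p.Prime → (p : ZMod m) = a → y < p → (p : ℝ) ≤ (1 + δ) * y → p ∈ T := by
    intro p hp hpa h5 h6
    rw [hT, mem_filter]
    refine ⟨?_, hpa, h5, h6⟩
    unfold PD
    rw [mem_filter, mem_Ioc]
    refine ⟨⟨?_, ?_⟩, hp⟩
    · have h7 : ((2 ^ (j - 1) : ℕ) : ℝ) < p := by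
        have h8 : (2 : ℝ) ^ j = 2 ^ (j - 1) * 2 := by
          rw [← pow_succ]
          congr 1
          omega
        push_cast
        linarith
      exact_mod_cast h7
    · have h7 : (p : ℝ) ≤ ((2 ^ j : ℕ) : ℝ) := by
        push_cast
        linarith
      exact_mod_cast h7
  have hfl : ⌊y⌋₊ ≤ ⌊(1 + δ) * y⌋₊ := Nat.floor_le_floor hyy
  have b4 : S ((1 + δ) * y) - S y ≤ ∑ p ∈ T, Real.log p +
      (Chebyshev.psi ((1 + δ) * y) - Chebyshev.theta ((1 + δ) * y)) := by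
    have h1 : S ((1 + δ) * y) - S y = ∑ k ∈ Ioc ⌊y⌋₊ ⌊(1 + δ) * y⌋₊, ArithmeticFunction.vonMangoldt.residueClass a k := by
      rw [hSd]
      dsimp only
      have e1 : ∀ n : ℕ, Finset.Icc 1 n = Ioc 0 n := fun n => rfl
      rw [e1, e1, ← sum_Ioc_consecutive _ (Nat.zero_le _) hfl]
      ring
    have h2 : Chebyshev.psi ((1 + δ) * y) - Chebyshev.theta ((1 + δ) * y) =
        ∑ k ∈ Ioc 0 ⌊(1 + δ) * y⌋₊, (ArithmeticFunction.vonMangoldt k - if k.Prime then Real.log k else 0) := by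
      unfold Chebyshev.psi Chebyshev.theta
      rw [sum_sub_distrib, sum_filter]
    have h3 : ∀ k : ℕ, (0 : ℝ) ≤ ArithmeticFunction.vonMangoldt k - if k.Prime then Real.log k else 0 := by
      intro k
      split_ifs with hk
      · rw [ArithmeticFunction.vonMangoldt_apply_prime hk, sub_self]
      · rw [sub_zero]
        exact ArithmeticFunction.vonMangoldt_nonneg
    have h4 : ∀ k ∈ Ioc ⌊y⌋₊ ⌊(1 + δ) * y⌋₊, ArithmeticFunction.vonMangoldt.residueClass a k ≤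
        (if k ∈ T then Real.log k else 0) + (ArithmeticFunction.vonMangoldt k - if k.Prime then Real.log k else 0) := by
      intro k hk
      rw [mem_Ioc] at hk
      have hk1 : y < k := (Nat.floor_lt hy0.le).1 hk.1
      have hk2 : (k : ℝ) ≤ (1 + δ) * y := (Nat.le_floor_iff hy1'.le).1 hk.2
      have hlogk : 0 ≤ Real.log (k : ℝ) := Real.log_natCast_nonneg k
      by_cases hkp : k.Prime
      · by_cases hka : (k : ZMod m) = a
        · rw [if_pos (hmemT k hkp hka hk1 hk2), if_pos hkp, ArithmeticFunction.vonMangoldt_apply_prime hkp, sub_self, add_zero]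
          refine (ArithmeticFunction.vonMangoldt.residueClass_le a k).trans ?_
          rw [ArithmeticFunction.vonMangoldt_apply_prime hkp]
        · have h5 : ArithmeticFunction.vonMangoldt.residueClass a k = 0 := by
            unfold ArithmeticFunction.vonMangoldt.residueClass
            exact Set.indicator_of_notMem (by simpa using hka) _
          rw [h5]
          exact add_nonneg (by split_ifs <;> simp [hlogk]) (h3 k)
      · have h5 : 0 ≤ if k ∈ T then Real.log (k : ℝ) else 0 := by split_ifs <;> simp [hlogk]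
        rw [if_neg hkp, sub_zero]
        have h6 := ArithmeticFunction.vonMangoldt.residueClass_le a k
        linarith
    rw [h1, h2]
    refine (sum_le_sum h4).trans ?_
    rw [sum_add_distrib]
    refine add_le_add ?_ ?_
    · rw [← sum_filter]
      exact sum_le_sum_of_subset_of_nonneg (fun k hk => (mem_filter.1 hk).2) fun k _ _ => Real.log_natCast_nonneg k
    · exact sum_le_sum_of_subset_of_nonneg (Ioc_subset_Ioc_left (Nat.zero_le _)) fun k _ _ => h3 k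
  have b5 : ∑ p ∈ T, Real.log p ≤ T.card * (j * Real.log 2) := by
    rw [← nsmul_eq_mul]
    refine sum_le_card_nsmul _ _ _ fun p hp => ?_
    rw [hT, mem_filter] at hp
    have h1 := Finset.mem_filter.1 hp.1
    have h2 := (Finset.mem_Ioc.1 h1.1).2
    have h3 : (0 : ℝ) < p := by exact_mod_cast h1.2.pos
    calc Real.log p ≤ Real.log (2 ^ j : ℝ) := Real.log_le_log h3 (by exact_mod_cast h2)
      _ = j * Real.log 2 := Real.log_pow _ _
  have b7 : Chebyshev.psi ((1 + δ) * y) - Chebyshev.theta ((1 + δ) * y) ≤ c * δ / 4 * y := by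
    refine (hC₁ _).trans ?_
    have h1 : C₁ * Real.sqrt ((1 + δ) * y) ≤ |C₁| * Real.sqrt ((1 + δ) * y) :=
      mul_le_mul_of_nonneg_right (le_abs_self _) (Real.sqrt_nonneg _)
    have h2 : c * δ / 8 * ((1 + δ) * y) ≤ c * δ / 8 * (2 * y) := by
      gcongr
      linarith
    linarith
  -- the upper bound
  have b6 : (PD j).card * (((j : ℝ) - 1) * Real.log 2) ≤ C * 2 ^ j := by
    refine le_trans ?_ (hch j (by omega)).2
    rw [← nsmul_eq_mul]
    refine card_nsmul_le_sum _ _ _ fun p hp => ?_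
    have h1 := Finset.mem_filter.1 hp
    have h2 := (Finset.mem_Ioc.1 h1.1).1
    have h4 : ((j : ℝ) - 1) = ((j - 1 : ℕ) : ℝ) := by rw [Nat.cast_sub (by omega)]; simp
    rw [h4, ← Real.log_pow]
    refine Real.log_le_log (by positivity) ?_
    have : ((2 ^ (j - 1) : ℕ) : ℝ) ≤ p := by exact_mod_cast h2.le
    push_cast at this
    exact this
  rw [← hT]
  have h1 : c * δ / 8 * 2 ^ j ≤ T.card * (j * Real.log 2) := by
    have : c * δ / 4 * (2 ^ j / 2) ≤ c * δ / 4 * y := by gcongr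
    linarith
  have hcard0 : (0 : ℝ) ≤ (PD j).card := by positivity
  have h2 : (PD j).card * (j * Real.log 2) ≤ 2 * (C * 2 ^ j) := by
    have : (j : ℝ) ≤ 2 * (j - 1) := by linarith
    have h3 : (PD j).card * (j * Real.log 2) ≤ (PD j).card * (2 * (j - 1) * Real.log 2) := by gcongr
    nlinarith
  have hjl : 0 < (j : ℝ) * Real.log 2 := by positivity
  have h3 : c * δ / (32 * C) * (PD j).card * (j * Real.log 2) ≤ T.card * (j * Real.log 2) := by
    calc c * δ / (32 * C) * (PD j).card * (j * Real.log 2) = c * δ / (32 * C) * ((PD j).card * (j * Real.log 2)) := by ring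
      _ ≤ c * δ / (32 * C) * (2 * (C * 2 ^ j)) := by gcongr
      _ = c * δ / 16 * 2 ^ j := by field_simp; ring
      _ ≤ c * δ / 8 * 2 ^ j := by gcongr; norm_num
      _ ≤ _ := h1
  exact le_of_mul_le_mul_right h3 hjl

/-- an element outside a small set -/
lemma exists_out (S B : Finset ℕ) (ρ N : ℝ) (hN : 0 < N) (hρ : 0 < ρ) (h1 : ρ * N ≤ S.card) (h2 : (B.card : ℝ) ≤ ρ / 2 * N) :
    ∃ p ∈ S, p ∉ B := by
  by_contra hcon
  push Not at hcon
  have h3 : S ⊆ B := fun p hp => hcon p hp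
  have h4 : (S.card : ℝ) ≤ B.card := by exact_mod_cast card_le_card h3
  have : 0 < ρ * N := by positivity
  nlinarith

/-- the separation property for functions of the residue class -/
lemma sep_of (m : ℕ) [NeZero m] (ξ : ZMod m → ℂ) (c : ℕ → ℂ) (P₀ : ℕ)
    (hc : ∀ p : ℕ, p.Prime → P₀ ≤ p → c p = ξ p) (a b e : ZMod m) (ha : IsUnit a) (hb : IsUnit b) (he : IsUnit e)
    (κ₀ : ℝ) (hκ : κ₀ ≤ ‖ξ a * ξ b - ξ e‖) : Sep c κ₀ := by
  classical
  intro δ' hδ'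
  obtain ⟨δ, hδd⟩ : ∃ δ : ℝ, δ = min δ' (1 / 4) := ⟨_, rfl⟩
  have hδ : 0 < δ := by rw [hδd]; exact lt_min hδ' (by norm_num)
  have hδ4 : δ ≤ 1 / 4 := by rw [hδd]; exact min_le_right _ _
  have hδδ : δ ≤ δ' := by rw [hδd]; exact min_le_left _ _
  obtain ⟨ρa, hρa, Ja, hJa⟩ := cellAP m a ha δ hδ (by linarith)
  obtain ⟨ρb, hρb, Jb, hJb⟩ := cellAP m b hb δ hδ (by linarith)
  obtain ⟨ρe, hρe, Je, hJe⟩ := cellAP m e he δ hδ (by linarith)
  obtain ⟨Jl, hJl⟩ : ∃ J : ℕ, (P₀ : ℝ) < 2 ^ J := pow_unbounded_of_one_lt _ (by norm_num)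
  have hlarge : ∀ j : ℕ, Jl + 1 ≤ j → ∀ p ∈ PD j, P₀ ≤ p := by
    intro j hj p hp
    have h11 := (mem_Ioc.1 (mem_filter.1 hp).1).1
    have h12 : 2 ^ Jl ≤ 2 ^ (j - 1) := Nat.pow_le_pow_right (by norm_num) (by omega)
    have h13 : (2 : ℝ) ^ Jl ≤ p := by exact_mod_cast h12.trans h11.le
    have h14 : (P₀ : ℝ) ≤ p := by linarith
    exact_mod_cast h14
  obtain ⟨ρ, hρ⟩ : ∃ ρ : ℝ, ρ = min (ρa / 2) (min (ρb / 2) (ρe / 2)) := ⟨_, rfl⟩
  have hρ0 : 0 < ρ := by rw [hρ]; exact lt_min (by positivity) (lt_min (by positivity) (by positivity))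
  have hρa' : ρ ≤ ρa / 2 := by rw [hρ]; exact min_le_left _ _
  have hρb' : ρ ≤ ρb / 2 := by rw [hρ]; exact (min_le_right _ _).trans (min_le_left _ _)
  have hρe' : ρ ≤ ρe / 2 := by rw [hρ]; exact (min_le_right _ _).trans (min_le_right _ _)
  refine ⟨ρ, hρ0, Ja + Jl + 1, fun j₁ hj₁ B₁ hB₁ => ?_⟩
  have hpj₁ : (0 : ℝ) < 2 ^ j₁ := by positivity
  have hcp : ∀ j : ℕ, 1 ≤ j → (0 : ℝ) < (PD j).card := fun j hj => by exact_mod_cast PD_pos hj
  have h1 := hJa j₁ (by omega) ((1 - δ) * 2 ^ j₁)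
    (by
      have : (3 / 4 : ℝ) * 2 ^ j₁ ≤ (1 - δ) * 2 ^ j₁ := mul_le_mul_of_nonneg_right (by linarith) hpj₁.le
      linarith)
    (by
      have : (1 + δ) * ((1 - δ) * 2 ^ j₁) = 2 ^ j₁ - δ * δ * 2 ^ j₁ := by ring
      have h2 : 0 < δ * δ * 2 ^ j₁ := by positivity
      linarith)
  obtain ⟨p₁, hp₁, hp₁B⟩ := exists_out _ B₁ ρa (PD j₁).card (hcp j₁ (by omega)) hρa h1
    (hB₁.trans (mul_le_mul_of_nonneg_right hρa' (hcp j₁ (by omega)).le))
  rw [mem_filter] at hp₁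
  obtain ⟨hp₁P, hp₁a, hp₁y, -⟩ := hp₁
  have hp₁u : (p₁ : ℝ) ≤ 2 ^ j₁ := by
    have := (mem_Ioc.1 (mem_filter.1 hp₁P).1).2
    exact_mod_cast this
  have hp₁0 : (0 : ℝ) < p₁ := by exact_mod_cast (mem_filter.1 hp₁P).2.pos
  refine ⟨p₁, hp₁P, hp₁B, Jb + Je + Jl + 1, fun j hj B₂ B₃ hB₂ hB₃ => ?_⟩
  have hpj : (0 : ℝ) < 2 ^ j := by positivity
  obtain ⟨x, hx⟩ : ∃ x : ℝ, x = 2 ^ j * (2 / 3) := ⟨_, rfl⟩
  have hx0 : 0 < x := by rw [hx]; positivity
  have h2 := hJb j (by omega) x (by rw [hx]; linarith) (by rw [hx]; nlinarith)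
  obtain ⟨p₂, hp₂, hp₂B⟩ := exists_out _ B₂ ρb (PD j).card (hcp j (by omega)) hρb h2
    (hB₂.trans (mul_le_mul_of_nonneg_right hρb' (hcp j (by omega)).le))
  have hpow : (2 : ℝ) ^ (j + j₁) = 2 ^ j * 2 ^ j₁ := pow_add _ _ _
  have h3 := hJe (j + j₁) (by omega) (p₁ * x) (by
      rw [hpow, hx]
      have h4 : (1 - δ) * 2 ^ j₁ * (2 ^ j * (2 / 3)) ≤ p₁ * (2 ^ j * (2 / 3)) := by gcongr
      have h5 : (3 / 4) * (2 : ℝ) ^ j₁ * (2 ^ j * (2 / 3)) ≤ (1 - δ) * 2 ^ j₁ * (2 ^ j * (2 / 3)) := by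
        gcongr
        linarith
      nlinarith) (by
      rw [hpow, hx]
      have h4 : (1 + δ) * (p₁ * (2 ^ j * (2 / 3))) ≤ (1 + 1 / 4) * (2 ^ j₁ * (2 ^ j * (2 / 3))) := by gcongr
      have h5 : (0 : ℝ) < 2 ^ j * 2 ^ j₁ := by positivity
      nlinarith)
  obtain ⟨p₃, hp₃, hp₃B⟩ := exists_out _ B₃ ρe (PD (j + j₁)).card (hcp _ (by omega)) hρe h3
    (hB₃.trans (mul_le_mul_of_nonneg_right hρe' (hcp _ (by omega)).le))
  rw [mem_filter] at hp₂ hp₃
  obtain ⟨hp₂P, hp₂b, hp₂y, hp₂z⟩ := hp₂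
  obtain ⟨hp₃P, hp₃e, hp₃y, hp₃z⟩ := hp₃
  have hp₂0 : (0 : ℝ) < p₂ := by exact_mod_cast (mem_filter.1 hp₂P).2.pos
  refine ⟨p₂, hp₂P, hp₂B, p₃, hp₃P, hp₃B, ?_, ?_⟩
  · have h4 : x * p₁ ≤ p₂ * p₁ := by gcongr
    have h5 : (p₂ : ℝ) * p₁ ≤ (1 + δ) * x * p₁ := by gcongr
    have h6 : δ * (x * p₁) ≤ δ * (p₂ * p₁) := by gcongr
    have h7 : δ * ((p₂ : ℝ) * p₁) ≤ δ' * (p₂ * p₁) := by gcongr
    rw [abs_le]
    constructor <;> nlinarith
  · rw [hc p₁ (mem_filter.1 hp₁P).2 (hlarge j₁ (by omega) p₁ hp₁P), hc p₂ (mem_filter.1 hp₂P).2 (hlarge j (by omega) p₂ hp₂P),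
      hc p₃ (mem_filter.1 hp₃P).2 (hlarge (j + j₁) (by omega) p₃ hp₃P), hp₁a, hp₂b, hp₃e]
    exact hκ

end Pool.Agent.Q270.EW
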