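import Pool.Agent.Q270.EW.Dil
import Pool.Agent.Q270.EV.Seq

/-!
Project EW (helper270): homogeneous forms; means over boxes and tubes.
-/

set_option autoImplicit false

namespace Pool.Agent.Q270.EW

open Finset Filter Topology Pool.Agent.Q270.EA Pool.Agent.Q270.EB Pool.Agent.Q270.EC Pool.Agent.Q119.EA
open Pool.Agent.Q270.EV
open Pool.Agent.Q270.EH (card_gap card_near cnt cnt_eq cnt_mono cnt_ex nz sparse)

variable {s k : ℕ}

/-- the data: slopes, offsets and linear forms -/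
structure DatO (s k : ℕ) where
  α : Fin s → ℝ
  β : Fin s → ℝ
  a : Fin k → ℤ × (Fin s → ℤ)
  z : Fin s → ℤ
  α0 : ∀ i, 0 < α i
  β0 : ∀ i, 0 ≤ β i
  ind : Ind α
  pos : ∀ j, 0 < ((a j).1 : ℝ) + ∑ i, (a j).2 i * α i

/-- the affine data with the constants given by a vector -/
def GZ (G : DatO s k) (z : Fin s → ℤ) : Dat s k where
  α := G.α
  β := G.β
  a0 := (1, 0)
  h0 := 1
  a := G.a
  h := fun j => lin (G.a j) 0 z
  D := 1
  y0 := 0
  y := -z
  α0 := G.α0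
  β0 := G.β0
  ind := G.ind
  pos0 := by simp
  pos := G.pos
  kill := fun j => by
    unfold lin
    simp only [mul_zero, zero_add, Pi.neg_apply, mul_neg, sum_neg_distrib, Nat.cast_one, one_mul]
    ring
  nkill := by
    unfold lin
    simp

/-- the product of the functions at the forms -/
noncomputable def PsH (a : Fin k → ℤ × (Fin s → ℤ)) (g : Fin k → ℕ → ℂ) (n : ℤ) (X : Fin s → ℤ) : ℂ :=
  ∏ j, g j (lin (a j) n X).toNat

lemma norm_PsH (a : Fin k → ℤ × (Fin s → ℤ)) (g : Fin k → ℕ → ℂ) (hg : ∀ j n, ‖g j n‖ ≤ 1) (n : ℤ)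
    (X : Fin s → ℤ) : ‖PsH a g n X‖ ≤ 1 := by
  unfold PsH
  rw [norm_prod]
  exact prod_le_one (fun _ _ => norm_nonneg _) fun j _ => hg _ _

lemma lin_shift (a : ℤ × (Fin s → ℤ)) (n : ℤ) (X z : Fin s → ℤ) (p : ℤ) :
    lin a n X + p * lin a 0 z = lin a n (fun i => X i + p * z i) := by
  unfold lin
  rw [mul_zero, zero_add, mul_sum, add_assoc, ← sum_add_distrib]
  congr 1
  exact sum_congr rfl fun i _ => by ring

lemma Ff_one (G : DatO s k) (z : Fin s → ℤ) (g : Fin k → ℕ → ℂ) (p : ℕ) (n : ℤ) (X : Fin s → ℤ) :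
    Ff one g (GZ G z).a0 (GZ G z).h0 (GZ G z).a (GZ G z).h p n X = PsH G.a g n (fun i => X i + p * z i) := by
  unfold Ff PsH one
  rw [one_mul]
  refine prod_congr rfl fun j _ => ?_
  congr 2
  exact lin_shift (G.a j) n X z p

/-- two digits -/
lemma digits {p q : ℕ} (hp : 1 ≤ p) (F : (Fin s → ℕ) → ℂ) :
    ∑ ρ ∈ Rs s q, ∑ ρ' ∈ Rs s p, F (fun i => ρ' i + p * ρ i) = ∑ r ∈ Rs s (p * q), F r := by
  rw [← sum_product']
  refine sum_nbij' (fun x => fun i => x.2 i + p * x.1 i) (fun r => (fun i => r i / p, fun i => r i % p)) ?_ ?_ ?_ ?_ ?_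
  · intro x hx
    rw [mem_product, mem_Rs, mem_Rs] at hx
    rw [mem_Rs]
    intro i
    have h1 := hx.1 i
    have h2 := hx.2 i
    have h3 : p * (x.1 i + 1) ≤ p * q := Nat.mul_le_mul_left _ h1
    rw [mul_add, mul_one] at h3
    omega
  · intro r hr
    rw [mem_Rs] at hr
    rw [mem_product, mem_Rs, mem_Rs]
    refine ⟨fun i => Nat.div_lt_of_lt_mul (hr i), fun i => Nat.mod_lt _ hp⟩
  · intro x hx
    rw [mem_product, mem_Rs, mem_Rs] at hx
    refine Prod.ext ?_ ?_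
    · funext i
      dsimp only
      rw [Nat.add_mul_div_left _ _ hp, Nat.div_eq_of_lt (hx.2 i), zero_add]
    · funext i
      dsimp only
      rw [Nat.add_mul_mod_self_left, Nat.mod_eq_of_lt (hx.2 i)]
  · intro r _
    funext i
    dsimp only
    exact Nat.mod_add_div _ _
  · intro x _
    rfl

/-- the shift vectors -/
noncomputable def zq (G : DatO s k) (q : ℕ) (ρ : Fin s → ℕ) : Fin s → ℤ := fun i => bq G.β q i + q * G.z i - (ρ i : ℤ)

/-- the function on the dilated variable, averaged over a box -/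
noncomputable def Th (G : DatO s k) (g : Fin k → ℕ → ℂ) (q p : ℕ) (r : Fin s → ℕ) (n : ℕ) : ℂ :=
  (∑ ρ ∈ Rs s q, psiV (GZ G (zq G q ρ)) one g p r n) / (q : ℂ) ^ s

lemma norm_one' (n : ℕ) : ‖one n‖ ≤ 1 := by unfold one; simp

lemma norm_avR (q : ℕ) (hq : 1 ≤ q) (F : (Fin s → ℕ) → ℂ) (B : ℝ) (hF : ∀ ρ, ‖F ρ‖ ≤ B) :
    ‖(∑ ρ ∈ Rs s q, F ρ) / (q : ℂ) ^ s‖ ≤ B := by
  have hq0 : (0 : ℝ) < (q : ℝ) ^ s := by
    have : (0 : ℝ) < q := by exact_mod_cast hq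
    positivity
  rw [norm_div, norm_pow, Complex.norm_natCast, div_le_iff₀ hq0]
  refine (norm_sum_le _ _).trans ((sum_le_sum fun r _ => hF r).trans ?_)
  rw [sum_const, card_Rs, nsmul_eq_mul]
  push_cast
  rw [mul_comm]

lemma norm_Th (G : DatO s k) (g : Fin k → ℕ → ℂ) (hg : ∀ j n, ‖g j n‖ ≤ 1) (q : ℕ) (hq : 1 ≤ q) (p : ℕ)
    (r : Fin s → ℕ) (n : ℕ) : ‖Th G g q p r n‖ ≤ 1 :=
  norm_avR q hq _ 1 fun _ => norm_psiV _ _ _ norm_one' hg _ _ _

/-- the offset of the combined box -/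
noncomputable def ofs (G : DatO s k) (q p : ℕ) : Fin s → ℤ := fun i => bq G.β p i + p * bq G.β q i + p * q * G.z i

/-- the mean of `Th` over the residues is a mean over a box -/
lemma avg_Th (G : DatO s k) (g : Fin k → ℕ → ℂ) (q p : ℕ) (hp : 1 ≤ p) (n : ℕ) :
    (∑ r ∈ Rs s p, Th G g q p r n) / (p : ℂ) ^ s =
      bav (PsH G.a g n) (Uz G.α G.β n + ofs G q p) (p * q) := by
  have h1 : (∑ r ∈ Rs s p, Th G g q p r n) / (p : ℂ) ^ s =
      (∑ ρ ∈ Rs s q, (∑ r ∈ Rs s p, psiV (GZ G (zq G q ρ)) one g p r n) / (p : ℂ) ^ s) / (q : ℂ) ^ s := by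
    unfold Th
    rw [← sum_div, sum_comm, ← sum_div, div_div, div_div, mul_comm ((q : ℂ) ^ s)]
  rw [h1]
  have h2 : ∀ ρ, (∑ r ∈ Rs s p, psiV (GZ G (zq G q ρ)) one g p r n) / (p : ℂ) ^ s =
      (∑ ρ' ∈ Rs s p, PsH G.a g n (fun i => (Uz G.α G.β n + ofs G q p) i - ((ρ' i + p * ρ i : ℕ) : ℤ))) / (p : ℂ) ^ s := by
    intro ρ
    rw [avg_psi _ _ _ p hp]
    unfold bav
    rw [sum_Bx]
    congr 1
    refine sum_congr rfl fun ρ' _ => ?_
    rw [Ff_one]
    congr 1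
    funext i
    unfold zq ofs
    simp only [Pi.add_apply]
    change Uz G.α G.β n i + bq G.β p i - (ρ' i : ℤ) + p * (bq G.β q i + q * G.z i - (ρ i : ℤ)) = _
    push_cast
    ring
  rw [sum_congr rfl fun ρ _ => h2 ρ, ← sum_div, digits hp (fun r => PsH G.a g n
    (fun i => (Uz G.α G.β n + ofs G q p) i - ((r i : ℕ) : ℤ)))]
  unfold bav
  rw [sum_Bx, div_div]
  push_cast
  rw [mul_pow]

/-- the mean over the tube, as a function of the label -/
noncomputable def TT (G : DatO s k) (g : Fin k → ℕ → ℂ) (q N : ℕ) : ℂ :=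
  (∑ ρ ∈ Rs s q, AvN N (phiV (GZ G (zq G q ρ)) one g)) / (q : ℂ) ^ s

lemma phi_GZ (G : DatO s k) (g : Fin k → ℕ → ℂ) (z : Fin s → ℤ) (n : ℕ) :
    phiV (GZ G z) one g n = PsH G.a g n (fun i => Uz G.α G.β n i + z i) := by
  unfold phiV
  have h := Ff_one G z g 1 n (Uz (GZ G z).α (GZ G z).β n)
  rw [h]
  congr 1
  funext i
  push_cast
  rw [one_mul]
  rfl

/-- the offset of a box -/
noncomputable def of1 (G : DatO s k) (q : ℕ) : Fin s → ℤ := fun i => bq G.β q i + q * G.z i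

lemma TT_eq (G : DatO s k) (g : Fin k → ℕ → ℂ) (q N : ℕ) :
    TT G g q N = (1 / (N : ℂ)) * ∑ n ∈ Icc 1 N, bav (PsH G.a g n) (Uz G.α G.β n + of1 G q) q := by
  unfold TT AvN bav
  rw [← mul_sum, sum_comm, mul_div_assoc, sum_div]
  congr 1
  refine sum_congr rfl fun n _ => ?_
  rw [sum_Bx]
  congr 1
  refine sum_congr rfl fun ρ _ => ?_
  rw [phi_GZ]
  congr 1
  funext i
  unfold zq of1
  simp only [Pi.add_apply]
  ring

lemma norm_TT (G : DatO s k) (g : Fin k → ℕ → ℂ) (hg : ∀ j n, ‖g j n‖ ≤ 1) (q : ℕ) (hq : 1 ≤ q) (N : ℕ) :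
    ‖TT G g q N‖ ≤ 1 :=
  norm_avR q hq _ 1 fun _ => norm_AvN_le (fun _ => norm_phiV _ _ _ norm_one' hg _) N

/-- the mean over the combined box, as a function of the label -/
noncomputable def VV (G : DatO s k) (g : Fin k → ℕ → ℂ) (q p N : ℕ) : ℂ :=
  (1 / (N : ℂ)) * ∑ n ∈ Icc 1 N, bav (PsH G.a g n) (Uz G.α G.β n + ofs G q p) (p * q)

lemma bq_one (β : Fin s → ℝ) : bq β 1 = 0 := by
  funext i
  unfold bq
  simp

/-- `q = 1` -/
lemma VV_one (G : DatO s k) (g : Fin k → ℕ → ℂ) (p N : ℕ) : VV G g 1 p N = TT G g p N := by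
  rw [TT_eq]
  unfold VV
  congr 1
  refine sum_congr rfl fun n _ => ?_
  have h1 : ofs G 1 p = of1 G p := by
    funext i
    unfold ofs of1
    rw [bq_one]
    simp
  rw [h1, mul_one]

end Pool.Agent.Q270.EW
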