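import Pool.Agent.Q270.EW.Box

/-!
Project EW (helper270): comparison of the means, and the dilation identity for the averaged functions.
-/

set_option autoImplicit false

namespace Pool.Agent.Q270.EW

open Finset Filter Topology Pool.Agent.Q270.EA Pool.Agent.Q270.EB Pool.Agent.Q270.EC Pool.Agent.Q119.EA
open Pool.Agent.Q270.EV
open Pool.Agent.Q270.EH (card_gap card_near cnt cnt_eq cnt_mono cnt_ex nz sparse)

variable {s k : ℕ}

/-- the combined box is close to a box -/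
lemma VT_cmp (G : DatO s k) (g : Fin k → ℕ → ℂ) (hg : ∀ j n, ‖g j n‖ ≤ 1) (B : ℝ) (hB : ∀ i, G.β i + |(G.z i : ℝ)| ≤ B)
    (hB0 : 0 ≤ B) (p q P : ℕ) (hp : 1 ≤ p) (hq : 1 ≤ q) (δ : ℝ)
    (hδ1 : |(P : ℝ) - p * q| ≤ δ * (p * q)) (κ : ℝ) (hκ : δ * (B + 1) + 5 / q ≤ κ) (hκ2 : κ ≤ 1 / 2)
    (N : ℕ) (hN : 1 ≤ N) :
    ‖VV G g q p N - TT G g P N‖ ≤ 12 * s * κ := by
  have hp0 : (0 : ℝ) < p := by exact_mod_cast hp
  have hq0 : (0 : ℝ) < q := by exact_mod_cast hq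
  have hp1 : (1 : ℝ) ≤ p := by exact_mod_cast hp
  have hpq0 : (0 : ℝ) < p * q := by positivity
  have hδ0 : 0 ≤ δ := by
    have := (abs_nonneg _).trans hδ1
    by_contra h
    push Not at h
    nlinarith
  have hκ0 : 0 ≤ κ := by
    have : 0 ≤ δ * (B + 1) + 5 / q := by positivity
    linarith
  obtain ⟨E, hE⟩ : ∃ E : ℕ, E = ⌊κ * (p * q)⌋₊ := ⟨_, rfl⟩
  have hE1 : (E : ℝ) ≤ κ * (p * q) := by rw [hE]; exact Nat.floor_le (by positivity)
  have hE2 : κ * (p * q) < E + 1 := by rw [hE]; exact Nat.lt_floor_add_one _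
  have h5 : (5 / q : ℝ) * (p * q) = 5 * p := by field_simp
  have hκpq : δ * (B + 1) * (p * q) + 5 * p ≤ κ * (p * q) := by
    have := mul_le_mul_of_nonneg_right hκ hpq0.le
    rw [add_mul, h5] at this
    exact this
  have hdB : δ * (p * q) ≤ δ * (B + 1) * (p * q) := by
    have : 0 ≤ δ * B * (p * q) := by positivity
    nlinarith
  have hPE : |(P : ℝ) - p * q| ≤ E := by
    have : |(P : ℝ) - p * q| ≤ κ * (p * q) - 1 := by linarith
    linarith
  have hPE' := abs_le.1 hPE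
  have hEh : (E : ℝ) ≤ 1 / 2 * (p * q) := hE1.trans (mul_le_mul_of_nonneg_right hκ2 hpq0.le)
  have hP0 : (0 : ℝ) < P := by
    have := (abs_le.1 hPE).1
    linarith
  have hP1 : 1 ≤ P := by exact_mod_cast hP0
  -- offsets
  have hof : ∀ n : ℕ, ∀ i, |(Uz G.α G.β n + ofs G q p) i - (Uz G.α G.β n + of1 G P) i| ≤ (E : ℤ) := by
    intro n i
    have h1 : |(((Uz G.α G.β n + ofs G q p) i - (Uz G.α G.β n + of1 G P) i : ℤ) : ℝ)| ≤ E := by
      simp only [Pi.add_apply]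
      unfold ofs of1 bq
      push_cast
      have f1 := Int.floor_le (((p : ℝ) - 1) * G.β i)
      have f2 := Int.lt_floor_add_one (((p : ℝ) - 1) * G.β i)
      have f3 := Int.floor_le (((q : ℝ) - 1) * G.β i)
      have f4 := Int.lt_floor_add_one (((q : ℝ) - 1) * G.β i)
      have f5 := Int.floor_le (((P : ℝ) - 1) * G.β i)
      have f6 := Int.lt_floor_add_one (((P : ℝ) - 1) * G.β i)
      have g1 : |((P : ℝ) - p * q) * (G.β i + G.z i)| ≤ δ * (p * q) * B := by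
        rw [abs_mul]
        refine mul_le_mul hδ1 (le_trans ?_ (hB i)) (abs_nonneg _) (by positivity)
        refine (abs_add_le _ _).trans ?_
        rw [abs_of_nonneg (G.β0 i)]
      have g2 := abs_le.1 g1
      have g3 : (p : ℝ) * ⌊((q : ℝ) - 1) * G.β i⌋ ≤ p * (((q : ℝ) - 1) * G.β i) := by gcongr
      have g4 : (p : ℝ) * (((q : ℝ) - 1) * G.β i) ≤ p * (⌊((q : ℝ) - 1) * G.β i⌋ + 1) := by gcongr
      have g5 : ((p : ℝ) - 1) * G.β i + p * (((q : ℝ) - 1) * G.β i) + p * q * G.z i - (((P : ℝ) - 1) * G.β i + P * G.z i) =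
        -(((P : ℝ) - p * q) * (G.β i + G.z i)) := by ring
      have g6 : δ * (B + 1) * (p * q) = δ * (p * q) * B + δ * (p * q) := by ring
      have g7 : 0 ≤ δ * (p * q) := by positivity
      rw [abs_le]
      constructor <;> nlinarith
    exact_mod_cast h1
  have hb : ∀ n : ℕ, ‖bav (PsH G.a g n) (Uz G.α G.β n + ofs G q p) (p * q) -
      bav (PsH G.a g n) (Uz G.α G.β n + of1 G P) P‖ ≤ 12 * s * κ := by
    intro n
    have hs0 : (0 : ℝ) ≤ s := by positivity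
    rcases le_total (p * q) P with hle | hle
    · have h1 := box_cmp (PsH G.a g n) (norm_PsH _ _ hg _) (Uz G.α G.β n + ofs G q p) (Uz G.α G.β n + of1 G P)
        (p * q) P E (Nat.mul_pos hp hq) hle (by
          have : (P : ℝ) ≤ ((p * q + E : ℕ) : ℝ) := by push_cast; linarith
          exact_mod_cast this) (by
          have : (E : ℝ) ≤ ((p * q : ℕ) : ℝ) := by push_cast; linarith
          exact_mod_cast this) (hof n)
      refine h1.trans ?_
      push_cast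
      rw [div_le_iff₀ hpq0]
      have : (s : ℝ) * E ≤ s * (κ * (p * q)) := by gcongr
      have h3 : 0 ≤ (s : ℝ) * (κ * (p * q)) := by positivity
      nlinarith
    · rw [norm_sub_rev]
      have h1 := box_cmp (PsH G.a g n) (norm_PsH _ _ hg _) (Uz G.α G.β n + of1 G P) (Uz G.α G.β n + ofs G q p)
        P (p * q) E hP1 hle (by
          have : ((p * q : ℕ) : ℝ) ≤ ((P + E : ℕ) : ℝ) := by push_cast; linarith
          exact_mod_cast this) (by
          have : (E : ℝ) ≤ P := by linarith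
          exact_mod_cast this) (fun i => by rw [abs_sub_comm]; exact hof n i)
      refine h1.trans ?_
      rw [div_le_iff₀ hP0]
      have h2 : (p * q : ℝ) ≤ 2 * P := by linarith
      have h3 : (s : ℝ) * E ≤ s * (κ * (2 * P)) := by
        gcongr
        exact hE1.trans (by gcongr)
      nlinarith
  have hN0 : (0 : ℝ) < N := by exact_mod_cast hN
  rw [TT_eq]
  unfold VV
  rw [← mul_sub, ← sum_sub_distrib, norm_mul, norm_div, norm_one, Complex.norm_natCast]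
  rw [div_mul_eq_mul_div, one_mul, div_le_iff₀ hN0]
  refine (norm_sum_le _ _).trans ((sum_le_sum fun n _ => hb n).trans ?_)
  rw [sum_const, Nat.card_Icc, Nat.add_sub_cancel, nsmul_eq_mul, mul_comm]

/-- means over close intervals -/
lemma AvN_near (φ : ℕ → ℂ) (hφ : ∀ n, ‖φ n‖ ≤ 1) (M M' : ℕ) (h : M ≤ M') (hM' : 1 ≤ M') :
    ‖AvN M φ - AvN M' φ‖ ≤ 2 * ((M' : ℝ) - M) / M' := by
  have hM0 : (0 : ℝ) < M' := by exact_mod_cast hM'
  have hMM : (M : ℝ) ≤ M' := by exact_mod_cast h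
  have h1 : ∑ n ∈ Icc 1 M', φ n = ∑ n ∈ Icc 1 M, φ n + ∑ n ∈ Ioc M M', φ n := by
    have e1 : Icc 1 M' = Ioc 0 M' := rfl
    have e2 : Icc 1 M = Ioc 0 M := rfl
    rw [e1, e2, ← sum_Ioc_consecutive φ (Nat.zero_le M) h]
  have h2 : ‖∑ n ∈ Ioc M M', φ n‖ ≤ (M' : ℝ) - M := by
    refine (norm_sum_le _ _).trans ((sum_le_sum fun n _ => hφ n).trans ?_)
    rw [sum_const, Nat.card_Ioc, nsmul_eq_mul, mul_one, Nat.cast_sub h]
  have hM'c : (M' : ℂ) ≠ 0 := by exact_mod_cast (by omega : M' ≠ 0)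
  have h3 : (AvN M φ - AvN M' φ) * M' = AvN M φ * ((M' : ℂ) - M) - ∑ n ∈ Ioc M M', φ n := by
    have e2 : AvN M' φ * M' = ∑ n ∈ Icc 1 M', φ n := by
      unfold AvN
      field_simp
    have e3 : AvN M φ * M = ∑ n ∈ Icc 1 M, φ n := by
      rcases Nat.eq_zero_or_pos M with h0 | h0
      · subst h0
        simp
      · have hMc : (M : ℂ) ≠ 0 := by exact_mod_cast h0.ne'
        unfold AvN
        field_simp
    rw [sub_mul, e2, h1, mul_sub, e3]
    ring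
  rw [le_div_iff₀ hM0]
  have e4 : ‖AvN M φ - AvN M' φ‖ * M' = ‖(AvN M φ - AvN M' φ) * M'‖ := by
    rw [norm_mul, Complex.norm_natCast]
  rw [e4, h3]
  refine (norm_sub_le _ _).trans ?_
  rw [norm_mul]
  have e5 : ‖((M' : ℂ) - M)‖ = (M' : ℝ) - M := by
    have : ((M' : ℂ) - M) = (((M' : ℝ) - M : ℝ) : ℂ) := by push_cast; ring
    rw [this, Complex.norm_real, Real.norm_eq_abs, abs_of_nonneg (by linarith)]
  rw [e5]
  have e6 : ‖AvN M φ‖ * ((M' : ℝ) - M) ≤ 1 * ((M' : ℝ) - M) :=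
    mul_le_mul_of_nonneg_right (norm_AvN_le hφ M) (by linarith)
  linarith

lemma AvN_zero (φ : ℕ → ℂ) : AvN 0 φ = 0 := by
  unfold AvN
  simp

/-- means over dilated intervals -/
lemma AvN_dil (φ : ℕ → ℂ) (hφ : ∀ n, ‖φ n‖ ≤ 1) (P P' N : ℕ) (hP : 1 ≤ P) (hPP : P ≤ P')
    (δ : ℝ) (hδ : (P' : ℝ) - P ≤ δ * P') (hN : 1 ≤ N) :
    ‖AvN (N / P) φ - AvN (N / P') φ‖ ≤ 4 * δ + 4 * P / N := by
  have hP0 : (0 : ℝ) < P := by exact_mod_cast hP
  have hP0' : (0 : ℝ) < P' := by exact_mod_cast (by omega : 0 < P')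
  have hN0 : (0 : ℝ) < N := by exact_mod_cast hN
  have hPPr : (P : ℝ) ≤ P' := by exact_mod_cast hPP
  have hδ0 : 0 ≤ δ := by
    by_contra h
    push Not at h
    nlinarith
  obtain ⟨M, hM⟩ : ∃ M, M = N / P' := ⟨_, rfl⟩
  obtain ⟨M', hM'⟩ : ∃ M', M' = N / P := ⟨_, rfl⟩
  have hMM : M ≤ M' := by rw [hM, hM']; exact Nat.div_le_div_left hPP hP
  rw [← hM, ← hM', norm_sub_rev]
  rcases Nat.eq_zero_or_pos M' with h0 | h0
  · have h1 : M = 0 := by omega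
    rw [h0, h1, AvN_zero, sub_zero, norm_zero]
    positivity
  · refine (AvN_near φ hφ M M' hMM h0).trans ?_
    have hM0 : (0 : ℝ) < M' := by exact_mod_cast h0
    have h1 : (M' : ℝ) ≤ N / P := by rw [hM']; exact Nat.cast_div_le
    have h2 : (N : ℝ) / P < M' + 1 := by
      rw [div_lt_iff₀ hP0, hM']
      have := Nat.lt_div_mul_add (a := N) hP
      have h3 : (N : ℝ) < ((N / P * P + P : ℕ) : ℝ) := by exact_mod_cast this
      push_cast at h3
      linarith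
    have h3 : (N : ℝ) / P' < M + 1 := by
      rw [div_lt_iff₀ hP0', hM]
      have := Nat.lt_div_mul_add (a := N) (by omega : 0 < P')
      have h3 : (N : ℝ) < ((N / P' * P' + P' : ℕ) : ℝ) := by exact_mod_cast this
      push_cast at h3
      linarith
    have h4 : (N : ℝ) / P - N / P' ≤ δ * (N / P) := by
      have e1 : (N : ℝ) / P - N / P' = ((P' : ℝ) - P) / P' * (N / P) := by
        field_simp
      rw [e1]
      apply mul_le_mul_of_nonneg_right _ (by positivity)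
      rw [div_le_iff₀ hP0']
      exact hδ
    have h5 : (N : ℝ) / P ≤ 2 * M' := by
      have : (1 : ℝ) ≤ M' := by exact_mod_cast h0
      linarith
    have h6 : 1 ≤ 2 * ((P : ℝ) / N) * M' := by
      have : (N : ℝ) / P * (P / N) = 1 := by field_simp
      have h7 : (N : ℝ) / P * (P / N) ≤ 2 * M' * (P / N) := by gcongr
      nlinarith
    rw [div_le_iff₀ hM0]
    have h7 : (M' : ℝ) - M ≤ δ * (N / P) + 1 := by linarith
    have h8 : δ * ((N : ℝ) / P) ≤ δ * (2 * M') := by gcongr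
    have h9 : (4 * δ + 4 * P / N) * M' = 4 * δ * M' + 2 * (2 * ((P : ℝ) / N) * M') := by ring
    rw [h9]
    nlinarith

/-- the dilation identity for the averaged functions -/
lemma dilT (G : DatO s k) (q : ℕ) (hq : 1 ≤ q) : ∃ C₂ : ℝ, 0 ≤ C₂ ∧
    ∀ (τ₁ : ℝ), 0 ≤ τ₁ → ∀ (p : ℕ), p.Prime →
    (∀ i, ∀ M : ℕ, cnt M (fun m : ℕ => nz (G.α i * m + G.β i) (2 / p)) ≤ τ₁ * M + 1) →
    ∀ (g gt : Fin k → ℕ → ℂ), (∀ j n, ‖g j n‖ ≤ 1) → (∀ j n, ‖gt j n‖ ≤ 1) → ∀ (τ : ℝ), (∀ j n, ‖gt j n - g j n‖ ≤ τ) →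
    ∀ (c : ℂ), ∏ j, g j p = c → (∀ j n, ¬ p ∣ n → g j (p * n) = g j p * g j n) →
    ∀ (N : ℕ), 1 ≤ N →
    ‖c * TT G g q (N / p) - (1 / (N : ℂ)) * ∑ n ∈ Icc 1 N, ((if p ∣ n then (p : ℂ) else 0) *
          Th G gt q p (fun i => un (GZ G 0) n i % p) n)‖ ≤
      2 * C₂ / p + 2 * s * τ₁ + k * τ + (2 * C₂ + 2 * s + 1) * p / N := by
  classical
  choose C hC0 hC using fun ρ => excV (GZ G (zq G q ρ))
  obtain ⟨C₂, hC₂⟩ : ∃ C₂, C₂ = ∑ ρ ∈ Rs s q, C ρ := ⟨_, rfl⟩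
  have hCle : ∀ ρ ∈ Rs s q, C ρ ≤ C₂ := fun ρ hρ => by
    rw [hC₂]
    exact single_le_sum (f := C) (fun _ _ => hC0 _) hρ
  have hC₂0 : 0 ≤ C₂ := by rw [hC₂]; exact sum_nonneg fun _ _ => hC0 _
  refine ⟨C₂, hC₂0, ?_⟩
  intro τ₁ hτ₁ p hp hsp g gt hg1 hgt1 τ hτ c hc hgm N hN
  obtain ⟨B, hB⟩ : ∃ B : ℝ, B = 2 * C₂ / p + 2 * s * τ₁ + k * τ + (2 * C₂ + 2 * s + 1) * p / N := ⟨_, rfl⟩
  have hN0 : (0 : ℝ) < N := by exact_mod_cast hN
  have hp0 : (0 : ℝ) < p := by exact_mod_cast hp.pos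
  have hz : ∀ ρ ∈ Rs s q, ‖c * AvN (N / p) (phiV (GZ G (zq G q ρ)) one g) - (1 / (N : ℂ)) *
      ∑ n ∈ Icc 1 N, ((if p ∣ n then (p : ℂ) else 0) *
        psiV (GZ G (zq G q ρ)) one gt p (fun i => un (GZ G 0) n i % p) n)‖ ≤ B := by
    intro ρ hρ
    refine (dilO (GZ G (zq G q ρ)) (C ρ) (hC0 ρ) (hC ρ) τ₁ hτ₁ p hp hsp g gt hg1 hgt1 τ hτ c hc hgm N hN).trans ?_
    rw [hB]
    have := hCle ρ hρ
    gcongr
  have hB0 : ∀ ρ ∈ Rs s q, 0 ≤ B := fun ρ hρ => (norm_nonneg _).trans (hz ρ hρ)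
  have e1 : c * TT G g q (N / p) - (1 / (N : ℂ)) * ∑ n ∈ Icc 1 N, ((if p ∣ n then (p : ℂ) else 0) *
          Th G gt q p (fun i => un (GZ G 0) n i % p) n) =
      (∑ ρ ∈ Rs s q, (c * AvN (N / p) (phiV (GZ G (zq G q ρ)) one g) - (1 / (N : ℂ)) *
      ∑ n ∈ Icc 1 N, ((if p ∣ n then (p : ℂ) else 0) *
        psiV (GZ G (zq G q ρ)) one gt p (fun i => un (GZ G 0) n i % p) n))) / (q : ℂ) ^ s := by
    unfold TT Th
    rw [sum_sub_distrib, sub_div, ← mul_sum, ← mul_sum, sum_comm, mul_div_assoc]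
    congr 1
    rw [mul_div_assoc, sum_div]
    congr 1
    refine sum_congr rfl fun n _ => ?_
    rw [← mul_sum, mul_div_assoc]
  rw [e1, ← hB]
  have hq0 : (0 : ℝ) < (q : ℝ) ^ s := by
    have : (0 : ℝ) < q := by exact_mod_cast hq
    positivity
  rw [norm_div, norm_pow, Complex.norm_natCast, div_le_iff₀ hq0]
  refine (norm_sum_le _ _).trans ((sum_le_sum hz).trans ?_)
  rw [sum_const, card_Rs, nsmul_eq_mul]
  push_cast
  rw [mul_comm]

end Pool.Agent.Q270.EW
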