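import Pool.Agent.Q270.EV.Dec

/-!
Project EW (helper270): entropy decrement, two good scales at a given distance.
Adapted from `Pool/Agent/Q270/EV/Dec.lean`.
-/

set_option autoImplicit false

namespace Pool.Agent.Q270.EW

open Finset Filter Pool.Agent.Q270.EA Pool.Agent.Q270.EC Pool.Agent.Q270.EV
open Pool.Agent.Q177.EA

variable {Ω A : Type} [Fintype A]

/-- a scale at which the residues are almost independent of the window and of the labels -/
def GoodS {R : Type} [Fintype R] (M : Sys Ω) {s : ℕ} (a : Ω → A) (U : Ω → Fin s → ℕ) (κ : Ω → ℕ → R)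
    (h0 : ℕ) (η : ℝ) (j : ℕ) : Prop :=
  (s + 1) * Real.log (QD j) - cH M (Yq M U (QD j))
    (fun ω => (win M a (h0 * 2 ^ j) ω, KR κ (2 ^ j + 1) ω)) ≤ η * (PD j).card

/-- entropy decrement: two good scales at distance `t` -/
theorem dec5 (hE : S_ENTP) (hC : S_CHEB) {R : Type} [Fintype R] (M : Sys Ω) {s : ℕ} (a : Ω → A)
    (U : Ω → Fin s → ℕ) (cc : A → Fin s → ℕ) (hU : Inc M a U cc)
    (κ : Ω → ℕ → R) (hκ : ∀ ω, κ (M.S ω) = κ ω)
    (hmax : ∀ n j : ℕ, cH M (Yq M U (QD j)) (KR κ n) = (s + 1) * Real.log (QD j))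
    (h0 : ℕ) (η : ℝ) (J t : ℕ) (hh0 : 1 ≤ h0) (hη : 0 < η) :
    ∃ j : ℕ, J ≤ j ∧ GoodS M a U κ h0 η j ∧ GoodS M a U κ h0 η (j + t) := by
  by_contra hcon
  push Not at hcon
  unfold GoodS at hcon
  obtain ⟨c, C, j₀, hc, hC0, hj₀, hch⟩ := hC
  have hs0 : (0 : ℝ) < s + 1 := by positivity
  -- the entropies
  let K : (b : ℕ) → Ω → Fin (2 ^ 2 ^ (b + 1) + 1) → R := fun b => KR κ (2 ^ 2 ^ (b + 1) + 1)
  have hKinv : ∀ b ω, K b (M.S ω) = K b ω := by
    intro b ω
    funext p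
    change κ (M.S ω) p = κ ω p
    rw [hκ]
  let Hn : ℕ → ℕ → ℝ := fun b L => cH M (win M a L) (K b)
  have hHn : ∀ b L, Hn b L = cH M (win M a L) (K b) := fun _ _ => rfl
  let e : ℕ → ℕ → ℝ := fun b j => Hn b (h0 * 2 ^ j) / ((h0 : ℝ) * 2 ^ j)
  have he : ∀ b j, e b j = Hn b (h0 * 2 ^ j) / ((h0 : ℝ) * 2 ^ j) := fun _ _ => rfl
  have hh0' : (0 : ℝ) < h0 := by exact_mod_cast hh0
  have hden : ∀ j : ℕ, (0 : ℝ) < (h0 : ℝ) * 2 ^ j := fun j => by positivity
  -- nonnegativity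
  have e0 : ∀ b j, 0 ≤ e b j := by
    intro b j
    rw [he]
    exact div_nonneg (hE Ω _ _ Unit M (win M a (h0 * 2 ^ j)) (K b) (fun _ => ())).1 (hden j).le
  -- the labels increase
  have e2 : ∀ b j, e (b + 1) j ≤ e b j := by
    intro b j
    rw [he, he]
    apply div_le_div_of_nonneg_right _ (hden j).le
    have hle : 2 ^ 2 ^ (b + 1) + 1 ≤ 2 ^ 2 ^ (b + 1 + 1) + 1 := by
      have : 2 ^ (b + 1) ≤ 2 ^ (b + 1 + 1) := Nat.pow_le_pow_right (by norm_num) (by omega)
      have := Nat.pow_le_pow_right (n := 2) (by norm_num) this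
      omega
    exact (hE Ω _ _ _ M (win M a (h0 * 2 ^ j)) (K (b + 1)) (K b)).2.2.2.2.1
      (fun y p => y (Fin.castLE hle p)) (fun ω => rfl)
  -- the step, in general
  have hstep : ∀ b j t : ℕ, ∀ (Q : ℕ) [NeZero Q], cH M (Yq M U Q) (K b) = (s + 1) * Real.log Q →
      e b (j + t) ≤ e b j - ((s + 1) * Real.log Q - cH M (Yq M U Q)
        (fun ω => (win M a (h0 * 2 ^ j) ω, K b ω))) / ((h0 : ℝ) * 2 ^ j)
        + (s + 1) * Real.log Q / ((h0 : ℝ) * 2 ^ (j + t)) := by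
    intro b j t Q _ hQ
    have h1 := step3 hE M a U cc hU Q (K b) (hKinv b) hQ (2 ^ t) (h0 * 2 ^ j)
    have h2 : 2 ^ t * (h0 * 2 ^ j) = h0 * 2 ^ (j + t) := by
      rw [pow_add]
      ring
    have h3 : cH M (win M a (2 ^ t * (h0 * 2 ^ j))) (K b) = Hn b (h0 * 2 ^ (j + t)) := by
      rw [← hHn, h2]
    rw [h3, ← hHn] at h1
    rw [he, he, div_le_iff₀ (hden (j + t))]
    have h4 : (h0 : ℝ) * 2 ^ (j + t) = 2 ^ t * ((h0 : ℝ) * 2 ^ j) := by
      rw [pow_add]
      ring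
    have h5 := (hden j).ne'
    have h6 : (2 : ℝ) ^ t ≠ 0 := by positivity
    refine h1.trans (le_of_eq ?_)
    rw [h4]
    push_cast
    field_simp
  -- monotonicity in the scale
  have e1 : ∀ b j, e b (j + 1) ≤ e b j := by
    intro b j
    have g0 : cH M (Yq M U 1) (K b) = (s + 1) * Real.log ((1 : ℕ) : ℝ) := by
      have g1 := (hE Ω _ _ Unit M (Yq M U 1) (K b) (fun _ => ())).1
      have g2 := (hE Ω _ _ Unit M (Yq M U 1) (K b) (fun _ => ())).2.2.2.2.2.1
      rw [card_Y] at g2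
      rw [Nat.cast_one, Real.log_one, mul_zero] at g2 ⊢
      exact le_antisymm g2 g1
    have h1 := hstep b j 1 1 g0
    have h2 := (hE Ω _ _ Unit M (Yq M U 1)
      (fun ω => (win M a (h0 * 2 ^ j) ω, K b ω)) (fun _ => ())).2.2.2.2.2.1
    rw [card_Y, Nat.cast_one, Real.log_one, mul_zero] at h2
    rw [Nat.cast_one, Real.log_one, mul_zero, zero_div, add_zero, zero_sub] at h1
    have h3 : 0 ≤ (-cH M (Yq M U 1)
      (fun ω => (win M a (h0 * 2 ^ j) ω, K b ω))) / ((h0 : ℝ) * 2 ^ j) :=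
      div_nonneg (by linarith) (hden j).le
    linarith
  have e1' : ∀ b j i, e b (j + i) ≤ e b j := by
    intro b j i
    induction i with
    | zero => exact le_refl _
    | succ i ih => exact (e1 b (j + i)).trans ih
  -- the decrement at one scale
  obtain ⟨t₀, ht₀⟩ : ∃ t₀ : ℕ, 4 * ((s + 1) * C) / (η * c) < 2 ^ t₀ :=
    pow_unbounded_of_one_lt _ (by norm_num)
  have hηc : 0 < η * c := mul_pos hη hc
  rw [div_lt_iff₀ hηc] at ht₀
  have hone : ∀ b j : ℕ, j₀ ≤ j → j ≤ 2 ^ (b + 1) →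
      η * (PD j).card < (s + 1) * Real.log (QD j) - cH M (Yq M U (QD j))
        (fun ω => (win M a (h0 * 2 ^ j) ω, KR κ (2 ^ j + 1) ω)) →
      e b (j + (b + t₀)) ≤ e b j - η * c / (2 * h0) / j := by
    intro b j hjj hjb h2
    have hj1 : 1 ≤ j := hj₀.trans hjj
    have hjR : (0 : ℝ) < j := by exact_mod_cast hj1
    obtain ⟨hc1, hc2⟩ := hch j hjj
    have hlog : Real.log (QD j) = ∑ p ∈ PD j, Real.log p := by
      rw [QD, Nat.cast_prod, Real.log_prod]
      intro p hp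
      have := (Finset.mem_filter.mp hp).2.pos
      exact_mod_cast this.ne'
    have h1 := hstep b j (b + t₀) (QD j) (hmax _ j)
    have hle : 2 ^ j + 1 ≤ 2 ^ 2 ^ (b + 1) + 1 := by
      have := Nat.pow_le_pow_right (n := 2) (by norm_num) hjb
      omega
    have h3 : cH M (Yq M U (QD j)) (fun ω => (win M a (h0 * 2 ^ j) ω, K b ω))
        ≤ cH M (Yq M U (QD j))
          (fun ω => (win M a (h0 * 2 ^ j) ω, KR κ (2 ^ j + 1) ω)) :=
      (hE Ω _ _ _ M (Yq M U (QD j)) (fun ω => (win M a (h0 * 2 ^ j) ω, K b ω))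
        (fun ω => (win M a (h0 * 2 ^ j) ω, KR κ (2 ^ j + 1) ω))).2.2.2.2.1
        (fun y => (y.1, fun p => y.2 (Fin.castLE hle p))) (fun ω => rfl)
    have h4 : η * c / (h0 * j) ≤ ((s + 1) * Real.log (QD j) - cH M (Yq M U (QD j))
        (fun ω => (win M a (h0 * 2 ^ j) ω, K b ω))) / ((h0 : ℝ) * 2 ^ j) := by
      rw [le_div_iff₀ (hden j)]
      have h5 : η * (c * 2 ^ j / j) ≤ η * (PD j).card := mul_le_mul_of_nonneg_left hc1 hη.le
      have h6 : η * c / (h0 * j) * (h0 * 2 ^ j) = η * (c * 2 ^ j / j) := by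
        field_simp
      rw [h6]
      linarith
    have h7 : (s + 1) * Real.log (QD j) / ((h0 : ℝ) * 2 ^ (j + (b + t₀))) ≤ η * c / (2 * h0) / j := by
      have h8 : (s + 1) * Real.log (QD j) ≤ ((s + 1) * C) * 2 ^ j := by
        rw [hlog, mul_assoc]
        exact mul_le_mul_of_nonneg_left hc2 hs0.le
      have h9 : (0 : ℝ) < (h0 : ℝ) * 2 ^ (j + (b + t₀)) := hden _
      rw [div_le_iff₀ h9]
      refine h8.trans ?_
      have h10 : η * c / (2 * h0) / j * (h0 * 2 ^ (j + (b + t₀)))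
          = 2 ^ j * (2 ^ b * (2 ^ t₀ * (η * c))) / (2 * j) := by
        rw [pow_add, pow_add]
        field_simp
      rw [h10, le_div_iff₀ (by positivity)]
      have h11 : (j : ℝ) ≤ 2 * 2 ^ b := by
        have : (j : ℝ) ≤ 2 ^ (b + 1) := by exact_mod_cast hjb
        rw [pow_succ] at this
        linarith
      have h12 : ((s + 1) * C) * 2 ^ j * (2 * j) ≤ 2 ^ j * (2 ^ b * (4 * ((s + 1) * C))) := by
        have h13 : (0 : ℝ) ≤ 2 ^ j * ((s + 1) * C) := by positivity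
        nlinarith
      have h14 : (2 : ℝ) ^ j * (2 ^ b * (4 * ((s + 1) * C))) ≤ 2 ^ j * (2 ^ b * (2 ^ t₀ * (η * c))) := by
        apply mul_le_mul_of_nonneg_left _ (by positivity)
        exact mul_le_mul_of_nonneg_left ht₀.le (by positivity)
      exact h12.trans h14
    have h15 : η * c / (h0 * j) = 2 * (η * c / (2 * h0) / j) := by
      field_simp
    rw [h15] at h4
    linarith
  -- the decrement
  refine Pool.Agent.Q261.EA.noseq (fun b j => e (b + 1) j + e (b + 1) (j + t))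
    (fun b j => add_nonneg (e0 _ _) (e0 _ _))
    (fun b j => add_le_add (e1 _ _) (by
      have := e1 (b + 1) (j + t)
      have e3 : j + 1 + t = j + t + 1 := by ring
      rw [e3]
      exact this))
    (fun b j => add_le_add (e2 _ _) (e2 _ _)) (η * c / (4 * h0)) (by positivity) ∅ 0 (fun s hs => by
    refine le_of_eq (sum_eq_zero fun j hj => ?_)
    exact absurd (hs j hj).1 (by simp)) (max (max J j₀) t) (t₀ + 1) ?_
  intro b j hj hjb _
  have hjJ : J ≤ j := (le_max_left _ _).trans ((le_max_left _ _).trans hj)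
  have hjj : j₀ ≤ j := (le_max_right _ _).trans ((le_max_left _ _).trans hj)
  have hjt : t ≤ j := (le_max_right _ _).trans hj
  have hj1 : 1 ≤ j := hj₀.trans hjj
  have hjR : (0 : ℝ) < j := by exact_mod_cast hj1
  have hx : b + (t₀ + 1) = (b + 1) + t₀ := by ring
  have hb2 : 2 ^ (b + 1 + 1) = 2 * 2 ^ (b + 1) := by ring
  have hrate : η * c / (4 * h0) / j ≤ η * c / (2 * h0) / j := by
    apply div_le_div_of_nonneg_right _ hjR.le
    apply div_le_div_of_nonneg_left hηc.le (by positivity)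
    linarith
  have hrate2 : η * c / (4 * h0) / j ≤ η * c / (2 * h0) / ((j + t : ℕ) : ℝ) := by
    have h1 : ((j + t : ℕ) : ℝ) ≤ 2 * j := by
      have : j + t ≤ 2 * j := by omega
      exact_mod_cast this
    have h2 : (0 : ℝ) < ((j + t : ℕ) : ℝ) := by exact_mod_cast (by omega : 0 < j + t)
    rw [div_div, div_div, div_le_div_iff₀ (by positivity) (by positivity)]
    have h3 : 2 * (h0 : ℝ) * ((j + t : ℕ) : ℝ) ≤ 4 * h0 * j := by nlinarith
    exact mul_le_mul_of_nonneg_left h3 hηc.le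
  rw [hx]
  have hm2 := e1' (b + 1) (j + t) ((b + 1) + t₀)
  have hm1 := e1' (b + 1) j ((b + 1) + t₀)
  have e3 : j + ((b + 1) + t₀) + t = j + t + ((b + 1) + t₀) := by ring
  rw [e3]
  by_cases hg : (s + 1) * Real.log (QD j) - cH M (Yq M U (QD j))
      (fun ω => (win M a (h0 * 2 ^ j) ω, KR κ (2 ^ j + 1) ω)) ≤ η * (PD j).card
  · have h2 := hcon j hjJ hg
    have h3 := hone (b + 1) (j + t) (by omega) (by omega) (not_le.1 h2)
    linarith
  · push Not at hg
    have h3 := hone (b + 1) j hjj (by omega) hg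
    linarith

end Pool.Agent.Q270.EW
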