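import Pool.Agent.Q270.EV.Det
import Pool.Agent.Q270.EW.Good

/-!
Project EW (helper270): the letters determine the function on the dilated variable, for all large windows.
Adapted from `Pool/Agent/Q270/EV/Det.lean`.
-/

set_option autoImplicit false

namespace Pool.Agent.Q270.EW

open Finset Filter Topology Pool.Agent.Q270.EA Pool.Agent.Q270.EB Pool.Agent.Q270.EC Pool.Agent.Q119.EA
open Pool.Agent.Q270.EV

variable {s k : ℕ}

/-- the letters determine the function on the dilated variable -/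
lemma det5 (G : Dat s k) : ∃ z : ℕ, ∀ y0 : ℕ, z ≤ y0 → ∀ {R : Type} (f : ℕ → ℂ), (∀ n, f n = 0 ∨ f n = 1 ∨ f n = -1) →
    ∀ (dec : R → ℂ) (L : ℕ), (∀ i, G.α i + 1 ≤ L) →
    (∀ n : ℕ, lin G.a0 (n + 1 : ℕ) (Uz G.α G.β (n + 1 : ℕ)) - lin G.a0 n (Uz G.α G.β n) ≤ L) →
    (∀ j, ∀ n : ℕ, lin (G.a j) (n + 1 : ℕ) (Uz G.α G.β (n + 1 : ℕ)) - lin (G.a j) n (Uz G.α G.β n) ≤ L) →
    ∀ j₀ : ℕ, ∀ p ∈ PD j₀, ∀ l < 2 ^ j₀, ∀ (ν ν' : ℕ) (u u' : Fin k → ℕ → R),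
      (∀ x < (2 * y0 + 1) * 2 ^ j₀, ltrV G f L u (ν + x) = ltrV G f L u' (ν' + x)) →
      ∀ r ∈ Rs s p, psiV G f (fun j n => dec (u j n)) p r (ν + (y0 * 2 ^ j₀ + l)) =
        psiV G f (fun j n => dec (u' j n)) p r (ν' + (y0 * 2 ^ j₀ + l)) := by
  classical
  -- the constants of a form
  obtain ⟨Kc, hKc⟩ : ∃ Kc : ℤ × (Fin s → ℤ) → ℤ → ℝ, Kc = fun (a : ℤ × (Fin s → ℤ)) (h : ℤ) => ∑ i, |(a.2 i : ℝ)| * (|G.β i| + 1) + 2 * |(h : ℝ)| :=
    ⟨_, rfl⟩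
  have hKc0 : ∀ a h, 0 ≤ Kc a h := fun a h => by
    rw [hKc]
    exact add_nonneg (sum_nonneg fun i _ => by positivity) (by positivity)
  have key : ∀ (a : ℤ × (Fin s → ℤ)) (h : ℤ), 0 < (a.1 : ℝ) + ∑ i, a.2 i * G.α i →
      ∃ y0 : ℕ, ∀ y1 : ℕ, y0 ≤ y1 → Kc a h + 2 * Kc a h + 1 ≤ ((a.1 : ℝ) + ∑ i, a.2 i * G.α i) * y1 := by
    intro a h hpos
    obtain ⟨y0, hy0⟩ := exists_nat_ge ((Kc a h + 2 * Kc a h + 1) / ((a.1 : ℝ) + ∑ i, a.2 i * G.α i))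
    refine ⟨y0, fun y1 hy1 => ?_⟩
    rw [div_le_iff₀ hpos] at hy0
    have : (y0 : ℝ) ≤ y1 := by exact_mod_cast hy1
    nlinarith
  obtain ⟨z0, hz0⟩ := key G.a0 G.h0 G.pos0
  choose z1 hz1 using fun j => key (G.a j) (G.h j) (G.pos j)
  refine ⟨z0 + ∑ j, z1 j, ?_⟩
  intro y0 hy0
  have hyz0 : z0 ≤ y0 := by omega
  have hyz1 : ∀ j, z1 j ≤ y0 := fun j => by
    have := single_le_sum (f := z1) (fun j _ => Nat.zero_le _) (mem_univ j)
    omega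
  intro R f hf dec L hL hL0 hLj j₀ p hp l hl ν ν' u u' hlet r hr
  have hpp : p.Prime := (mem_filter.1 hp).2
  have hp1 : 1 ≤ p := hpp.one_le
  have hp1r : (1 : ℝ) ≤ p := by exact_mod_cast hp1
  have hp2 : p ≤ 2 ^ j₀ := (mem_Ioc.1 (mem_filter.1 hp).1).2
  have hp2r : (p : ℝ) ≤ 2 ^ j₀ := by exact_mod_cast hp2
  obtain ⟨x, hx⟩ : ∃ x, x = y0 * 2 ^ j₀ + l := ⟨_, rfl⟩
  obtain ⟨W, hW⟩ : ∃ W, W = (2 * y0 + 1) * 2 ^ j₀ := ⟨_, rfl⟩
  have hWe : W = 2 * (y0 * 2 ^ j₀) + 2 ^ j₀ := by rw [hW]; ring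
  have hx1 : y0 * 2 ^ j₀ ≤ x := by omega
  have hWx : x + y0 * 2 ^ j₀ ≤ W := by omega
  rw [← hx]
  rw [← hW] at hlet
  -- increments
  have hinc : ∀ y < W, ∀ i, Uz G.α G.β ((ν + y + 1 : ℕ) : ℤ) i - Uz G.α G.β ((ν + y : ℕ) : ℤ) i =
      Uz G.α G.β ((ν' + y + 1 : ℕ) : ℤ) i - Uz G.α G.β ((ν' + y : ℕ) : ℤ) i := by
    intro y hy i
    have e1 := hlet y hy
    unfold ltrV at e1
    obtain ⟨-, e2⟩ := Prod.ext_iff.1 e1
    obtain ⟨-, e3⟩ := Prod.ext_iff.1 e2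
    have e4 := congrFun e3 i
    dsimp only at e4
    have e6 := congrArg (fun a : Fin (L + 1) => (a : ℕ)) e4
    obtain ⟨g1, g2⟩ := un_inc G L hL (ν + y) i
    obtain ⟨g3, g4⟩ := un_inc G L hL (ν' + y) i
    simp only [Fin.val_ofNat] at e6
    rw [Nat.mod_eq_of_lt (Nat.lt_succ_of_le g2), Nat.mod_eq_of_lt (Nat.lt_succ_of_le g4)] at e6
    rw [← un_cast, ← un_cast, ← un_cast, ← un_cast]
    omega
  -- the offset of a form
  obtain ⟨ρ', hρ'⟩ : ∃ ρ' : Fin s → ℕ, ∀ i, (r i + bn G p i) % p = ρ' i := ⟨_, fun i => rfl⟩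
  have hρp : ∀ i, ρ' i ≤ p := fun i => by rw [← hρ']; exact (Nat.mod_lt _ hp1).le
  have hoff : ∀ (a : ℤ × (Fin s → ℤ)) (h : ℤ), ∃ c : ℤ, |(c : ℝ)| ≤ Kc a h * 2 ^ j₀ ∧ ∀ n : ℕ,
      lin a n (fun i => ((un G n i + bn G p i : ℕ) : ℤ) - (ρ' i : ℤ)) + p * h =
        lin a n (Uz G.α G.β n) + h + c := by
    intro a h
    refine ⟨∑ i, a.2 i * ((bn G p i : ℤ) - (ρ' i : ℤ)) + (p * h - h), ?_, fun n => ?_⟩
    · have e0 : Kc a h * p ≤ Kc a h * 2 ^ j₀ := mul_le_mul_of_nonneg_left hp2r (hKc0 a h)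
      refine le_trans ?_ e0
      rw [hKc]
      dsimp only
      rw [add_mul, sum_mul]
      push_cast
      refine (abs_add_le _ _).trans (add_le_add ?_ ?_)
      · refine (abs_sum_le_sum_abs _ _).trans (sum_le_sum fun i _ => ?_)
        rw [abs_mul, mul_assoc]
        refine mul_le_mul_of_nonneg_left ?_ (abs_nonneg _)
        have f1 : (bn G p i : ℝ) ≤ |G.β i| * p := by
          have g1 : (bn G p i : ℝ) = ((bq G.β p i : ℤ) : ℝ) := by exact_mod_cast bn_cast G p hp1 i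
          rw [g1]
          unfold bq
          have g2 := Int.floor_le (((p : ℝ) - 1) * G.β i)
          have g3 := le_abs_self (G.β i)
          have g4 := G.β0 i
          nlinarith
        have f2 : (ρ' i : ℝ) ≤ p := by exact_mod_cast hρp i
        have f3 : (0 : ℝ) ≤ (ρ' i : ℝ) := by positivity
        have f4 : (0 : ℝ) ≤ (bn G p i : ℝ) := by positivity
        have f5 : (|G.β i| + 1) * (p : ℝ) = |G.β i| * p + p := by ring
        rw [f5, abs_le]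
        have f6 : 0 ≤ |G.β i| * (p : ℝ) := by positivity
        constructor <;> linarith
      · have e1 : (p : ℝ) * h - h = (p - 1) * h := by ring
        rw [e1, abs_mul, abs_of_nonneg (by linarith)]
        have := abs_nonneg (h : ℝ)
        nlinarith
    · unfold lin
      have e1 : ∑ i, a.2 i * (((un G n i + bn G p i : ℕ) : ℤ) - (ρ' i : ℤ)) =
          ∑ i, a.2 i * Uz G.α G.β n i + ∑ i, a.2 i * ((bn G p i : ℤ) - (ρ' i : ℤ)) := by
        rw [← sum_add_distrib]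
        refine sum_congr rfl fun i _ => ?_
        rw [← un_cast]
        push_cast
        ring
      rw [e1]
      ring
  have hnear : ∀ (a : ℤ × (Fin s → ℤ)) (h : ℤ) (n : ℕ),
      |((lin a n (Uz G.α G.β n) + h : ℤ) : ℝ) - ((a.1 : ℝ) + ∑ i, a.2 i * G.α i) * n| ≤ Kc a h := by
    intro a h n
    have h1 := lin_near G.α G.β a n
    push_cast at h1 ⊢
    have h2 : (lin a n (Uz G.α G.β n) : ℝ) + h - (a.1 + ∑ i, a.2 i * G.α i) * n =
        ((lin a n (Uz G.α G.β n) : ℝ) - (a.1 + ∑ i, a.2 i * G.α i) * n) + h := by ring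
    rw [h2, hKc]
    refine (abs_add_le _ _).trans ?_
    have := abs_nonneg (h : ℝ)
    dsimp only
    linarith
  unfold psiV Ff
  simp only [hρ']
  congr 1
  · -- the value of `f`
    obtain ⟨c, hc1, hc2⟩ := hoff G.a0 G.h0
    rw [hc2, hc2]
    refine det_form G.α G.β G.a0 G.h0 _ (Kc G.a0 G.h0) (Kc G.a0 G.h0) G.pos0 (hnear _ _) (hKc0 _ _) L hL0
      ν ν' x W y0 j₀ hx1 hWx hinc (fun z => f z.toNat) (fun z => f z.toNat) (fun y hy l hl => ?_) c hc1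
      (hz0 y0 hyz0)
    have e1 := hlet y hy
    unfold ltrV at e1
    obtain ⟨e2, -⟩ := Prod.ext_iff.1 e1
    have e3 := congrFun e2 ⟨l, hl⟩
    dsimp only at e3
    obtain ⟨e4, e5⟩ := Prod.ext_iff.1 e3
    dsimp only at e4 e5
    have e6 := decide_eq_decide.1 e4
    have e7 := decide_eq_decide.1 e5
    change f (w0 G (ν + y) + l).toNat = f (w0 G (ν' + y) + l).toNat
    rcases hf (w0 G (ν + y) + l).toNat with h | h | h
    · rcases hf (w0 G (ν' + y) + l).toNat with h' | h' | h'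
      · rw [h, h']
      · exact absurd (e6.2 h') (by rw [h]; norm_num)
      · exact absurd (e7.2 h') (by rw [h]; norm_num)
    · rw [h, e6.1 h]
    · rw [h, e7.1 h]
  · refine prod_congr rfl fun j _ => ?_
    obtain ⟨c, hc1, hc2⟩ := hoff (G.a j) (G.h j)
    rw [hc2, hc2]
    refine congrArg dec (det_form G.α G.β (G.a j) (G.h j) _ (Kc (G.a j) (G.h j)) (Kc (G.a j) (G.h j)) (G.pos j) (hnear _ _)
      (hKc0 _ _) L (hLj j) ν ν' x W y0 j₀ hx1 hWx hinc (fun z => u j z.toNat) (fun z => u' j z.toNat)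
      (fun y hy l hl => ?_) c hc1 (hz1 j y0 (hyz1 j)))
    have e1 := hlet y hy
    unfold ltrV at e1
    obtain ⟨-, e2⟩ := Prod.ext_iff.1 e1
    obtain ⟨e3, -⟩ := Prod.ext_iff.1 e2
    exact congrFun (congrFun e3 j) ⟨l, hl⟩

end Pool.Agent.Q270.EW
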