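import Pool.Agent.Q270.EW.Det

/-!
Project EW (helper270): the dilation identity at one scale, complex form.
Adapted from `Pool/Agent/Q270/EV/Dil.lean`.
-/

set_option autoImplicit false

namespace Pool.Agent.Q270.EW

open Finset Filter Topology Pool.Agent.Q270.EA Pool.Agent.Q270.EB Pool.Agent.Q270.EC Pool.Agent.Q119.EA
open Pool.Agent.Q270.EV
open Pool.Agent.Q270.EH (card_gap card_near cnt cnt_eq cnt_mono cnt_ex nz sparse)

variable {s k : ℕ}

/-- the constant function -/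
def one (_ : ℕ) : ℂ := 1

lemma phi_one (G : Dat s k) (g : Fin k → ℕ → ℂ) (n : ℕ) : phiV G one g n = ∏ j, g j (wj G j n).toNat := by
  rw [phiV_eq]
  unfold one
  rw [one_mul]

/-- the dilation identity at one scale -/
lemma dilO (G : Dat s k) (C₂ : ℝ) (hC₂0 : 0 ≤ C₂) (hC₂ : ∀ p M : ℕ, 1 ≤ p →
      cnt M (fun n : ℕ => (w0 G n ≤ 0 ∨ (p : ℤ) ∣ w0 G n) ∨ ∃ j, (wj G j n ≤ 0 ∨ (p : ℤ) ∣ wj G j n)) ≤
        C₂ * (M / p + 1))
    (τ₁ : ℝ) (hτ₁ : 0 ≤ τ₁) (p : ℕ) (hp : p.Prime)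
    (hsp : ∀ i, ∀ M : ℕ, cnt M (fun m : ℕ => nz (G.α i * m + G.β i) (2 / p)) ≤ τ₁ * M + 1)
    (g gt : Fin k → ℕ → ℂ) (hg1 : ∀ j n, ‖g j n‖ ≤ 1)
    (hgt1 : ∀ j n, ‖gt j n‖ ≤ 1) (τ : ℝ) (hτ : ∀ j n, ‖gt j n - g j n‖ ≤ τ)
    (c : ℂ) (hc : ∏ j, g j p = c)
    (hgm : ∀ j n, ¬ p ∣ n → g j (p * n) = g j p * g j n)
    (N : ℕ) (hN : 1 ≤ N) :
    ‖c * AvN (N / p) (phiV G one g) - (1 / (N : ℂ)) * ∑ n ∈ Icc 1 N, ((if p ∣ n then (p : ℂ) else 0) *
          psiV G one gt p (fun i => un G n i % p) n)‖ ≤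
      2 * C₂ / p + 2 * s * τ₁ + k * τ + (2 * C₂ + 2 * s + 1) * p / N := by
  classical
  have hp0 : (0 : ℝ) < p := by exact_mod_cast hp.pos
  have hN0 : (0 : ℝ) < N := by exact_mod_cast hN
  have hp0' : (p : ℝ) ≠ 0 := hp0.ne'
  have ho1 : ∀ n, ‖one n‖ ≤ 1 := fun n => by unfold one; simp
  have hc1 : ‖c‖ ≤ 1 := by
    rw [← hc, norm_prod]
    exact prod_le_one (fun _ _ => norm_nonneg _) fun j _ => hg1 _ _
  have hsτ : 0 ≤ k * τ := by
    rcases Nat.eq_zero_or_pos k with h0 | h0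
    · subst h0; simp
    · have := (norm_nonneg _).trans (hτ ⟨0, h0⟩ 0)
      positivity
  obtain ⟨φ, hφ⟩ : ∃ φ, φ = phiV G one g := ⟨_, rfl⟩
  have hφ1 : ∀ n, ‖φ n‖ ≤ 1 := fun n => by rw [hφ]; exact norm_phiV G one g ho1 hg1 n
  obtain ⟨M, hM⟩ : ∃ M, M = N / p := ⟨_, rfl⟩
  obtain ⟨S, hS⟩ : ∃ S, S = ∑ n ∈ Icc 1 M, φ n := ⟨_, rfl⟩
  obtain ⟨ψ, hψ⟩ : ∃ ψ : ℕ → ℂ, ψ = fun n => psiV G one gt p (fun i => un G n i % p) n := ⟨_, rfl⟩
  have hψ1 : ∀ n, ‖ψ n‖ ≤ 1 := fun n => by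
    rw [hψ]
    exact norm_psiV G one gt ho1 hgt1 p _ n
  rw [← hφ, ← hM]
  have h1 : ∑ n ∈ Icc 1 N, ((if p ∣ n then (p : ℂ) else 0) *
      psiV G one gt p (fun i => un G n i % p) n) = p * ∑ n ∈ Icc 1 M, ψ (p * n) := by
    have h2 : ∀ n, (if p ∣ n then (p : ℂ) else 0) *
        psiV G one gt p (fun i => un G n i % p) n =
        (p : ℂ) * (if p ∣ n then ψ n else 0) := by
      intro n
      rw [hψ]
      dsimp only
      split_ifs <;> ring
    simp only [h2]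
    rw [← mul_sum, sum_mult p N hp.one_le, ← hM]
  rw [h1]
  -- comparison
  obtain ⟨P, hP⟩ : ∃ P : ℕ → Prop, P = fun n => ((w0 G n ≤ 0 ∨ (p : ℤ) ∣ w0 G n) ∨
    ∃ j, (wj G j n ≤ 0 ∨ (p : ℤ) ∣ wj G j n)) ∨ ∃ i, nz (G.α i * n + G.β i) (2 / p) := ⟨_, rfl⟩
  obtain ⟨Ex, hEx⟩ : ∃ Ex : Finset ℕ, Ex = (Icc 1 M).filter P := ⟨_, rfl⟩
  have hExc : (Ex.card : ℝ) ≤ C₂ * (M / p + 1) + s * (τ₁ * M + 1) := by
    rw [hEx, cnt_eq, hP]
    refine (Pool.Agent.Q270.EH.cnt_or _ _ _).trans (add_le_add (hC₂ p M hp.one_le) ?_)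
    refine (cnt_ex M _).trans ((sum_le_sum fun i _ => hsp i M).trans ?_)
    rw [sum_const, card_univ, Fintype.card_fin, nsmul_eq_mul]
  have hterm : ∀ n ∈ Icc 1 M, ‖ψ (p * n) - c * φ n‖ ≤ k * τ + if n ∈ Ex then 2 else 0 := by
    intro n hn
    have hn1 := (mem_Icc.1 hn).1
    split_ifs with hne
    · refine (norm_sub_le _ _).trans ?_
      have h2 : ‖c * φ n‖ ≤ 1 := by
        rw [norm_mul]
        exact mul_le_one₀ hc1 (norm_nonneg _) (hφ1 n)
      linarith [hψ1 (p * n)]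
    · rw [add_zero]
      have hnd : ¬ P n := by
        intro hj
        apply hne
        rw [hEx, mem_filter]
        exact ⟨hn, hj⟩
      rw [hP] at hnd
      push Not at hnd
      obtain ⟨⟨hnd1, hnd2⟩, hnd3⟩ := hnd
      have hval : ∀ w : ℤ, 0 < w → ((p : ℤ) * w).toNat = p * w.toNat := by
        intro w hw
        have : (((p : ℤ) * w).toNat : ℤ) = ((p * w.toNat : ℕ) : ℤ) := by
          rw [Int.toNat_of_nonneg (by positivity)]
          push_cast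
          rw [Int.toNat_of_nonneg hw.le]
        exact_mod_cast this
      have hndv : ∀ w : ℤ, 0 < w → ¬ (p : ℤ) ∣ w → ¬ p ∣ w.toNat := by
        intro w hw hd hd'
        apply hd
        have : ((w.toNat : ℕ) : ℤ) = w := Int.toNat_of_nonneg hw.le
        rw [← this]
        exact_mod_cast hd'
      have hgv : ∀ j, g j ((p : ℤ) * wj G j n).toNat = g j p * g j (wj G j n).toNat := by
        intro j
        rw [hval _ (hnd2 j).1, hgm]
        exact hndv _ (hnd2 j).1 (hnd2 j).2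
      have h6 : ∏ j, g j ((p : ℤ) * wj G j n).toNat = c * ∏ j, g j (wj G j n).toNat := by
        rw [prod_congr rfl fun j _ => hgv j, prod_mul_distrib, hc]
      have h2 : ψ (p * n) - c * φ n = (∏ j, gt j ((p : ℤ) * wj G j n).toNat -
            ∏ j, g j ((p : ℤ) * wj G j n).toNat) := by
        rw [hψ, hφ]
        dsimp only
        rw [psi_dil G one gt p n hp.one_le hnd3, phi_one, h6]
        unfold one
        ring
      rw [h2]
      have h9 := norm_prod_sub_le univ (fun j => gt j ((p : ℤ) * wj G j n).toNat)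
        (fun j => g j ((p : ℤ) * wj G j n).toNat) (fun j _ => hgt1 _ _) (fun j _ => hg1 _ _)
        (fun j _ => hτ j _)
      rwa [card_univ, Fintype.card_fin] at h9
  have hcmp : ‖∑ n ∈ Icc 1 M, ψ (p * n) - c * S‖ ≤ M * (k * τ) + 2 * Ex.card := by
    rw [hS, mul_sum, ← sum_sub_distrib]
    refine (norm_sum_le _ _).trans ((sum_le_sum hterm).trans ?_)
    rw [sum_add_distrib, sum_const, Nat.card_Icc, Nat.add_sub_cancel, nsmul_eq_mul,
      ← sum_filter, sum_const, nsmul_eq_mul, mul_comm _ (2 : ℝ)]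
    have h3 : (Icc 1 M).filter (fun n => n ∈ Ex) ⊆ Ex := fun n hn => (mem_filter.1 hn).2
    have h4 : (((Icc 1 M).filter (fun n => n ∈ Ex)).card : ℝ) ≤ Ex.card := by
      exact_mod_cast card_le_card h3
    linarith
  have hMp : (M : ℝ) * p ≤ N := by
    have : M * p ≤ N := by rw [hM]; exact Nat.div_mul_le_self N p
    exact_mod_cast this
  have hMp2 : (N : ℝ) ≤ M * p + p := by
    have : N ≤ M * p + p := by
      rw [hM]
      have := Nat.lt_div_mul_add (a := N) hp.pos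
      omega
    exact_mod_cast this
  have hSM : ‖S‖ ≤ M := by
    rw [hS]
    refine (norm_sum_le _ _).trans ((sum_le_sum fun n _ => hφ1 n).trans ?_)
    simp
  -- the two means
  have hA : ‖c * AvN M φ - (1 / (N : ℂ)) * (p * (c * S))‖ ≤ p / N := by
    unfold AvN
    rw [← hS]
    have e1 : c * (1 / (M : ℂ) * S) - (1 / (N : ℂ)) * (p * (c * S)) = (c * S) * ((1 / (M : ℂ)) - (p : ℂ) / N) := by ring
    rw [e1, norm_mul, norm_mul]
    rcases Nat.eq_zero_or_pos M with h0 | h0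
    · have hS0 : ‖S‖ = 0 := by
        rw [h0] at hSM
        push_cast at hSM
        exact le_antisymm hSM (norm_nonneg _)
      rw [hS0, mul_zero, zero_mul]
      positivity
    · have hM0 : (0 : ℝ) < M := by exact_mod_cast h0
      have e2 : ((1 / (M : ℂ)) - (p : ℂ) / N) = (((N : ℝ) - M * p) / (M * N) : ℝ) := by
        have hMc : (M : ℂ) ≠ 0 := by exact_mod_cast h0.ne'
        have hNc : (N : ℂ) ≠ 0 := by exact_mod_cast (by omega : N ≠ 0)
        push_cast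
        field_simp
      have e3 : ‖((1 / (M : ℂ)) - (p : ℂ) / N)‖ ≤ p / (M * N) := by
        rw [e2, Complex.norm_real, Real.norm_eq_abs, abs_div, abs_of_nonneg (by linarith : 0 ≤ (N : ℝ) - M * p),
          abs_of_pos (by positivity : 0 < (M : ℝ) * N)]
        gcongr
        linarith
      calc ‖c‖ * ‖S‖ * ‖((1 / (M : ℂ)) - (p : ℂ) / N)‖ ≤ 1 * M * (p / (M * N)) := by gcongr
        _ = p / N := by field_simp
  have hB : ‖(1 / (N : ℂ)) * (p * (c * S)) - (1 / (N : ℂ)) * (p * ∑ n ∈ Icc 1 M, ψ (p * n))‖ ≤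
      (p / N) * (M * (k * τ) + 2 * (C₂ * (M / p + 1) + s * (τ₁ * M + 1))) := by
    have e1 : (1 / (N : ℂ)) * (p * (c * S)) - (1 / (N : ℂ)) * (p * ∑ n ∈ Icc 1 M, ψ (p * n)) =
        -((p : ℂ) / N * (∑ n ∈ Icc 1 M, ψ (p * n) - c * S)) := by ring
    rw [e1, norm_neg, norm_mul, norm_div, Complex.norm_natCast, Complex.norm_natCast]
    refine mul_le_mul_of_nonneg_left ?_ (by positivity)
    linarith
  have hkey : (p / N : ℝ) * (M * (k * τ) + 2 * (C₂ * (M / p + 1) + s * (τ₁ * M + 1))) ≤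
      2 * C₂ / p + 2 * s * τ₁ + k * τ + (2 * C₂ + 2 * s) * p / N := by
    have hMN : (p : ℝ) * M / N ≤ 1 := by
      rw [div_le_one hN0]
      linarith
    have hMN2 : (M : ℝ) / N ≤ 1 / p := by
      rw [div_le_div_iff₀ hN0 hp0]
      linarith
    have hs0 : (0 : ℝ) ≤ s := by positivity
    have e1 : (p / N : ℝ) * (M * (k * τ) + 2 * (C₂ * (M / p + 1) + s * (τ₁ * M + 1))) =
        (p * M / N) * (k * τ) + 2 * C₂ * (M / N) + 2 * s * τ₁ * (p * M / N) + (2 * C₂ + 2 * s) * p / N := by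
      field_simp
      ring
    rw [e1]
    have e2 : (p * M / N : ℝ) * (k * τ) ≤ 1 * (k * τ) := mul_le_mul_of_nonneg_right hMN hsτ
    have e3 : 2 * C₂ * ((M : ℝ) / N) ≤ 2 * C₂ * (1 / p) := mul_le_mul_of_nonneg_left hMN2 (by positivity)
    have e4 : 2 * (s : ℝ) * τ₁ * (p * M / N) ≤ 2 * s * τ₁ * 1 := mul_le_mul_of_nonneg_left hMN (by positivity)
    have e5 : 2 * C₂ * (1 / (p : ℝ)) = 2 * C₂ / p := by ring
    linarith
  have e9 : c * AvN M φ - (1 / (N : ℂ)) * (p * ∑ n ∈ Icc 1 M, ψ (p * n)) =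
      (c * AvN M φ - (1 / (N : ℂ)) * (p * (c * S))) +
      ((1 / (N : ℂ)) * (p * (c * S)) - (1 / (N : ℂ)) * (p * ∑ n ∈ Icc 1 M, ψ (p * n))) := by ring
  rw [e9]
  refine (norm_add_le _ _).trans ((add_le_add hA (hB.trans hkey)).trans (le_of_eq ?_))
  ring

end Pool.Agent.Q270.EW
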