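import Pool.Agent.Q270.EW.Seq
import Pool.Agent.Q270.EW.Ap
import Pool.Agent.Q270.EV.Out

/-!
Project EW (helper270): the uniform statement, and the reduction of the general statement.
-/

set_option autoImplicit false

namespace Pool.Agent.Q270.EW

open Finset Filter Topology Pool.Agent.Q270.EA Pool.Agent.Q270.EB Pool.Agent.Q270.EC Pool.Agent.Q119.EA
open Pool.Agent.Q270.EV
open Pool.Agent.Q270.EH (EX_const)

variable {s k : ℕ}

/-- the uniform statement -/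
theorem ow_unif (G : DatO s k) (c : ℕ → ℂ) (κ₀ : ℝ) (hκ₀ : 0 < κ₀) (hSep : Sep c κ₀) (P₀ : ℕ) (ε : ℝ) (hε : 0 < ε) :
    ∃ X₀ : ℕ, ∀ X : ℕ, X₀ ≤ X → ∀ g : Fin k → ℕ → ℂ, (∀ j, BM (g j)) →
      (∀ p : ℕ, p.Prime → P₀ ≤ p → ∏ j, g j p = c p) →
      EX X (fun N _ => ‖AvN N (phiV (GZ G G.z) one g)‖) ≤ ε := by
  classical
  by_contra hcon
  push Not at hcon
  choose X hX g hg hgc hgX using hcon
  have hXt : Tendsto X atTop atTop := tendsto_atTop_mono hX tendsto_id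
  exact owseq G c κ₀ hκ₀ hSep P₀ X hXt g (fun i j n => (hg i j).1 n) hgc
    (fun i j p n hp hn => (hg i j).2.2 p n ((Nat.Prime.coprime_iff_not_dvd hp).2 hn)) ε hε (fun i => (hgX i).le)

/-- the general statement -/
theorem ow_gen (α β : Fin s → ℝ) (hα : Ind α) (a : Fin k → ℤ × (Fin s → ℤ))
    (hpos : ∀ j, 0 < ((a j).1 : ℝ) + ∑ i, (a j).2 i * α i)
    (c : ℕ → ℂ) (κ₀ : ℝ) (hκ₀ : 0 < κ₀) (hSep : Sep c κ₀) (P₀ : ℕ) (ε : ℝ) (hε : 0 < ε) :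
    ∃ X₀ : ℕ, ∀ X : ℕ, X₀ ≤ X → ∀ g : Fin k → ℕ → ℂ, (∀ j, BM (g j)) →
      (∀ p : ℕ, p.Prime → P₀ ≤ p → ∏ j, g j p = c p) →
      ∑ N ∈ Icc 1 X, (1 / (N : ℝ)) * ‖(1 / (N : ℂ)) * ∑ n ∈ Icc 1 N,
        ∏ j, g j (lin (a j) n (Uz α β n)).toNat‖ ≤ ε * Real.log X := by
  classical
  obtain ⟨K, hK⟩ : ∃ K : Fin s → ℕ, ∀ i, 0 < α i + K i := by
    choose K hK using fun i => exists_nat_gt (-α i)
    exact ⟨K, fun i => by linarith [hK i]⟩
  obtain ⟨K', hK'⟩ : ∃ K' : Fin s → ℕ, ∀ i, 0 ≤ β i + K' i := by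
    choose K' hK' using fun i => exists_nat_ge (-β i)
    exact ⟨K', fun i => by linarith [hK' i]⟩
  obtain ⟨α', hα'⟩ : ∃ α' : Fin s → ℝ, α' = fun i => α i + K i := ⟨_, rfl⟩
  obtain ⟨β', hβ'⟩ : ∃ β' : Fin s → ℝ, β' = fun i => β i + K' i := ⟨_, rfl⟩
  obtain ⟨tr, htr⟩ : ∃ tr : ℤ × (Fin s → ℤ) → ℤ × (Fin s → ℤ), tr = fun (a : ℤ × (Fin s → ℤ)) => (a.1 - ∑ i, a.2 i * K i, a.2) := ⟨_, rfl⟩
  have hUz : ∀ n : ℤ, ∀ i, Uz α' β' n i = Uz α β n i + K i * n + K' i := by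
    intro n i
    unfold Uz
    rw [hα', hβ']
    dsimp only
    have e1 : (α i + K i) * (n : ℝ) + (β i + K' i) = (α i * n + β i) + ((K i * n + K' i : ℤ) : ℝ) := by
      push_cast
      ring
    rw [e1, Int.floor_add_intCast]
    ring
  have hfv : ∀ (a : ℤ × (Fin s → ℤ)) (n : ℤ), lin (tr a) n (fun i => Uz α' β' n i + -(K' i : ℤ)) = lin a n (Uz α β n) := by
    intro a n
    unfold lin
    rw [htr]
    dsimp only
    have e1 : ∑ i, a.2 i * (Uz α' β' n i + -(K' i : ℤ)) = ∑ i, a.2 i * Uz α β n i + (∑ i, a.2 i * K i) * n := by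
      rw [sum_mul, ← sum_add_distrib]
      refine sum_congr rfl fun i _ => ?_
      rw [hUz]
      ring
    rw [e1]
    ring
  have hslope : ∀ a : ℤ × (Fin s → ℤ), ((tr a).1 : ℝ) + ∑ i, (tr a).2 i * α' i = (a.1 : ℝ) + ∑ i, a.2 i * α i := by
    intro a
    rw [htr, hα']
    dsimp only
    push_cast
    simp only [mul_add, sum_add_distrib]
    ring
  obtain ⟨G, hG1, hG2, hG3, hG4⟩ : ∃ G : DatO s k, G.α = α' ∧ G.β = β' ∧ (∀ j, G.a j = tr (a j)) ∧ G.z = fun i => -(K' i : ℤ) :=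
    ⟨{ α := α'
       β := β'
       a := fun j => tr (a j)
       z := fun i => -(K' i : ℤ)
       α0 := fun i => by rw [hα']; exact hK i
       β0 := fun i => by rw [hβ']; exact hK' i
       ind := fun c d hcd => by
         refine hα c (d - ∑ i, c i * K i) ?_
         rw [hα'] at hcd
         push_cast
         rw [← hcd]
         simp only [mul_add, sum_add_distrib]
         ring
       pos := fun j => by rw [hslope]; exact hpos j }, rfl, rfl, fun _ => rfl, rfl⟩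
  obtain ⟨X₀, hX₀⟩ := ow_unif G c κ₀ hκ₀ hSep P₀ (ε / 2) (by positivity)
  refine ⟨max X₀ 3, fun X hX g hg hgc => ?_⟩
  have h1 := hX₀ X ((le_max_left _ _).trans hX) g hg hgc
  have hX3 : 3 ≤ X := (le_max_right _ _).trans hX
  have hXr0 : (0 : ℝ) < X := by
    have : 0 < X := by omega
    exact_mod_cast this
  have hlog : 1 ≤ Real.log X := by
    rw [Real.le_log_iff_exp_le hXr0]
    have h3 : (3 : ℝ) ≤ X := by exact_mod_cast hX3
    have := Real.exp_one_lt_d9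
    linarith
  have h2 := EX_const X (fun N => ‖AvN N (phiV (GZ G G.z) one g)‖)
  have h3 := sum_inv_le X
  have hS0 : 0 ≤ ∑ N ∈ Icc 1 X, 1 / (N : ℝ) := sum_nonneg fun _ _ => by positivity
  have e0 : ∀ N : ℕ, (1 / (N : ℂ)) * ∑ n ∈ Icc 1 N, ∏ j, g j (lin (a j) n (Uz α β n)).toNat = AvN N (phiV (GZ G G.z) one g) := by
    intro N
    unfold AvN
    congr 1
    refine sum_congr rfl fun n _ => ?_
    rw [phi_GZ, hG1, hG2, hG4]
    unfold PsH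
    refine prod_congr rfl fun j _ => ?_
    rw [hG3, hfv]
  simp only [e0]
  rw [← h2]
  calc EX X (fun N _ => ‖AvN N (phiV (GZ G G.z) one g)‖) * ∑ N ∈ Icc 1 X, 1 / (N : ℝ) ≤
        ε / 2 * (1 + Real.log X) := by gcongr
    _ ≤ ε / 2 * (2 * Real.log X) := by gcongr; linarith
    _ = _ := by ring

/-- the theorem, for finite index types and functions of a residue class -/
theorem ow_main {ι : Type*} [Fintype ι] (α β : Fin s → ℝ)
    (hα : LinearIndependent ℚ (Fin.cons 1 α : Fin (s + 1) → ℝ)) (F : ι → ℤ × (Fin s → ℤ))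
    (hF : ∀ j, 0 < ((F j).1 : ℝ) + ∑ i, (F j).2 i * α i)
    (m : ℕ) [NeZero m] (ξ : ZMod m → ℂ) (h1 : ∃ a, IsUnit a ∧ ξ a ≠ 1) (h0 : ∃ a, IsUnit a ∧ ξ a ≠ 0) (P₀ : ℕ)
    (ε : ℝ) (hε : 0 < ε) :
    ∃ X₀ : ℕ, ∀ X : ℕ, X₀ ≤ X → ∀ g : ι → ℕ → ℂ, (∀ j, BM (g j)) →
      (∀ p : ℕ, p.Prime → P₀ ≤ p → ∏ j, g j p = ξ p) →
      ∑ N ∈ Icc 1 X, (1 / (N : ℝ)) * ‖(1 / (N : ℂ)) * ∑ n ∈ Icc 1 N,
        ∏ j, g j ((F j).1 * n + ∑ i, (F j).2 i * ⌊α i * n + β i⌋).toNat‖ ≤ ε * Real.log X := by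
  classical
  have e := Fintype.equivFin ι
  obtain ⟨a, b, d, ha, hb, hd, habd⟩ : ∃ a b d : ZMod m, IsUnit a ∧ IsUnit b ∧ IsUnit d ∧ ξ a * ξ b ≠ ξ d := by
    by_contra hcon
    push Not at hcon
    obtain ⟨a, ha, ha1⟩ := h1
    obtain ⟨b, hb, hb0⟩ := h0
    have e1 := hcon a b b ha hb hb
    exact ha1 (mul_right_cancel₀ hb0 (by rw [one_mul]; exact e1))
  have hκ : 0 < ‖ξ a * ξ b - ξ d‖ := norm_pos_iff.2 (sub_ne_zero.2 habd)
  obtain ⟨X₀, h⟩ := ow_gen α β (ind_of_li α hα) (fun j => F (e.symm j)) (fun j => hF (e.symm j)) (fun p => ξ p)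
    ‖ξ a * ξ b - ξ d‖ hκ (sep_of m ξ (fun p => ξ p) P₀ (fun _ _ _ => rfl) a b d ha hb hd _ le_rfl) P₀ ε hε
  refine ⟨X₀, fun X hX g hg hgc => ?_⟩
  refine le_trans (le_of_eq ?_) (h X hX (g ∘ e.symm) (fun j => hg _) (fun p hp hpP => ?_))
  · refine sum_congr rfl fun N _ => ?_
    congr 3
    refine sum_congr rfl fun n _ => ?_
    have h3 : ∀ j, (g ∘ e.symm) j (lin (F (e.symm j)) n (Uz α β n)).toNat =
        (fun j => g j ((F j).1 * n + ∑ i, (F j).2 i * ⌊α i * n + β i⌋).toNat) (e.symm j) := fun j => by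
      unfold lin Uz
      push_cast
      rfl
    rw [prod_congr rfl fun j _ => h3 j]
    exact (Equiv.prod_comp e.symm (fun j => g j ((F j).1 * n + ∑ i, (F j).2 i * ⌊α i * n + β i⌋).toNat)).symm
  · rw [← hgc p hp hpP]
    exact Equiv.prod_comp e.symm (fun j => g j p)

end Pool.Agent.Q270.EW
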