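import Pool.Agent.Q270.EW.Cmp

/-!
Project EW (helper270): maximal conditional entropy of the residues given labels.
Adapted from `Pool/Agent/Q270/EV/Ind.lean`.
-/

set_option autoImplicit false

namespace Pool.Agent.Q270.EW

open Finset Filter Pool.Agent.Q270.EA Pool.Agent.Q270.EC Pool.Agent.Q285.EA Pool.Agent.Q270.EV

variable {Ω Λ : Type}

/-- the residues are uniform and independent of the labels -/
def IndL (M : Sys Ω) {s : ℕ} (U : Ω → Fin s → ℕ) (lab : Ω → Λ) : Prop :=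
  ∀ (Q r : ℕ) (r' : Fin s → ℕ), 1 ≤ Q → r < Q → (∀ i, r' i < Q) → ∀ φ : Λ → ℝ,
    (∀ x, |φ x| ≤ 1) →
    M.m (fun ω => if M.ν ω % Q = r ∧ (fun i => U ω i % Q) = r' then φ (lab ω) else 0) =
      (1 / (Q : ℝ) ^ (s + 1)) * M.m (fun ω => φ (lab ω))

lemma ind_maxL (M : Sys Ω) {s : ℕ} (U : Ω → Fin s → ℕ) (lab : Ω → Λ) {R : Type} [Fintype R]
    (κl : Λ → ℕ → R) (hI : IndL M U lab) (n j : ℕ) :
    cH M (Yq M U (QD j)) (KR (fun ω p => κl (lab ω) p) n) = (s + 1) * Real.log (QD j) := by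
  classical
  rw [← card_Y s (QD j)]
  refine cH_unif M _ _ ?_
  intro a b
  have hQ1 : 1 ≤ QD j := Nat.one_le_iff_ne_zero.2 (NeZero.ne _)
  let φ : Λ → ℝ := fun x => if (fun p : Fin n => κl x p) = b then 1 else 0
  have hφ : ∀ x, |φ x| ≤ 1 := by
    intro x
    simp only [φ]
    split_ifs <;> simp
  have h := hI (QD j) a.1.val (fun i => (a.2 i).val) hQ1 (ZMod.val_lt a.1)
    (fun i => ZMod.val_lt (a.2 i)) φ hφ
  have e1 : ∀ ω, φ (lab ω) =
      if KR (fun ω p => κl (lab ω) p) n ω = b then 1 else 0 := by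
    intro ω
    rfl
  simp only [e1] at h
  have e0 : ∀ (x : ℕ) (z : ZMod (QD j)), x % QD j = z.val ↔ (x : ZMod (QD j)) = z := by
    intro x z
    constructor
    · intro h2
      have h3 : ((x % QD j : ℕ) : ZMod (QD j)) = ((z.val : ℕ) : ZMod (QD j)) := by rw [h2]
      rwa [ZMod.natCast_mod, ZMod.natCast_zmod_val] at h3
    · intro h2
      rw [← h2, ZMod.val_natCast]
  have e2 : ∀ ω, (M.ν ω % QD j = a.1.val ∧ (fun i => U ω i % QD j) = fun i => (a.2 i).val) ↔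
      Yq M U (QD j) ω = a := by
    intro ω
    unfold Yq
    constructor
    · rintro ⟨h1, h2⟩
      refine Prod.ext ((e0 _ _).1 h1) ?_
      funext i
      exact (e0 _ _).1 (congrFun h2 i)
    · intro h1
      obtain ⟨h2, h3⟩ := Prod.ext_iff.1 h1
      refine ⟨(e0 _ _).2 h2, ?_⟩
      funext i
      exact (e0 _ _).2 (congrFun h3 i)
  have h4 : pr M (fun ω => (Yq M U (QD j) ω, KR (fun ω p => κl (lab ω) p) n ω)) (a, b) =
      M.m (fun ω => if M.ν ω % QD j = a.1.val ∧ (fun i => U ω i % QD j) = (fun i => (a.2 i).val) then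
        (if KR (fun ω p => κl (lab ω) p) n ω = b then (1 : ℝ) else 0) else 0) := by
    unfold pr
    refine congrArg M.m (funext fun ω => ?_)
    by_cases h3 : Yq M U (QD j) ω = a
    · rw [if_pos ((e2 ω).2 h3)]
      by_cases h4 : KR (fun ω p => κl (lab ω) p) n ω = b
      · rw [if_pos (Prod.ext h3 h4), if_pos h4]
      · rw [if_neg fun h5 => h4 (Prod.mk.inj h5).2, if_neg h4]
    · rw [if_neg (fun h5 => h3 ((e2 ω).1 h5)), if_neg fun h5 => h3 (Prod.mk.inj h5).1]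
  have h5 : pr M (KR (fun ω p => κl (lab ω) p) n) b =
      M.m (fun ω => if KR (fun ω p => κl (lab ω) p) n ω = b then (1 : ℝ) else 0) := by
    unfold pr
    refine congrArg M.m (funext fun ω => ?_)
    by_cases h4 : KR (fun ω p => κl (lab ω) p) n ω = b
    · rw [if_pos h4, if_pos h4]
    · rw [if_neg h4, if_neg h4]
  have h6 : (Fintype.card (ZMod (QD j) × (Fin s → ZMod (QD j))) : ℝ) = (QD j : ℝ) ^ (s + 1) := by
    rw [Fintype.card_prod, Fintype.card_pi, ZMod.card]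
    simp only [ZMod.card, prod_const, card_univ, Fintype.card_fin]
    push_cast
    ring
  rw [h4, h5, h, h6, mul_comm]

/-- separation of the values of `c` at products and at primes -/
def Sep (c : ℕ → ℂ) (κ₀ : ℝ) : Prop :=
  ∀ δ : ℝ, 0 < δ → ∃ ρ : ℝ, 0 < ρ ∧ ∃ J₁ : ℕ, ∀ j₁ : ℕ, J₁ ≤ j₁ → ∀ B₁ : Finset ℕ, (B₁.card : ℝ) ≤ ρ * (PD j₁).card →
    ∃ p₁ ∈ PD j₁, p₁ ∉ B₁ ∧ ∃ J : ℕ, ∀ j : ℕ, J ≤ j → ∀ B₂ B₃ : Finset ℕ, (B₂.card : ℝ) ≤ ρ * (PD j).card →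
      (B₃.card : ℝ) ≤ ρ * (PD (j + j₁)).card → ∃ p₂ ∈ PD j, p₂ ∉ B₂ ∧ ∃ p₃ ∈ PD (j + j₁), p₃ ∉ B₃ ∧
        |(p₃ : ℝ) - p₂ * p₁| ≤ δ * (p₂ * p₁) ∧ κ₀ ≤ ‖c p₁ * c p₂ - c p₃‖

end Pool.Agent.Q270.EW
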