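import Pool.Agent.Q148.EA.CHEB

/-!
Project EW (helper270): primes in short cells.
-/

set_option autoImplicit false

namespace Pool.Agent.Q270.EW

open Finset Filter Topology Pool.Agent.Q270.EA

/-- the primes of a cell have positive proportion -/
lemma cellPD (δ : ℝ) (hδ : 0 < δ) (hδ1 : δ ≤ 1) : ∃ ρ : ℝ, 0 < ρ ∧ ∃ J : ℕ, ∀ j : ℕ, J ≤ j → ∀ y : ℝ,
    (2 : ℝ) ^ j / 2 ≤ y → (1 + δ) * y ≤ 2 ^ j →
    ρ * (PD j).card ≤ ((PD j).filter (fun p : ℕ => y < p ∧ (p : ℝ) ≤ (1 + δ) * y)).card := by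
  classical
  obtain ⟨c, C, j₀, hc, hC0, hj₀, hch⟩ := Pool.Agent.Q148.EA.t_CHEB
  have h0 := Pool.Agent.Cov.PNT.theta_div_tendsto
  have e1 : ∀ᶠ x : ℝ in atTop, |Chebyshev.theta x / x - 1| < δ / 8 := by
    have := Metric.tendsto_nhds.1 h0 (δ / 8) (by positivity)
    simpa [Real.dist_eq] using this
  obtain ⟨X, hX⟩ := eventually_atTop.1 e1
  obtain ⟨J₁, hJ₁⟩ : ∃ J₁ : ℕ, X < 2 ^ J₁ := pow_unbounded_of_one_lt _ (by norm_num)
  refine ⟨δ / (16 * C), by positivity, j₀ + J₁ + 4, fun j hj y hy1 hy2 => ?_⟩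
  have hl2 : 0 < Real.log 2 := Real.log_pos (by norm_num)
  have hj4 : (4 : ℝ) ≤ j := by exact_mod_cast (by omega : 4 ≤ j)
  have hpj : (0 : ℝ) < 2 ^ j := by positivity
  have hy0 : 0 < y := by linarith
  have hXy : X ≤ y := by
    have h1 : (2 : ℝ) ^ (J₁ + 1) ≤ 2 ^ j := pow_le_pow_right₀ (by norm_num) (by omega)
    rw [pow_succ] at h1
    linarith
  have hy1' : 0 < (1 + δ) * y := by positivity
  have a1 := abs_lt.1 (hX y hXy)
  have a2 := abs_lt.1 (hX ((1 + δ) * y) (by nlinarith))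
  have b1 : Chebyshev.theta y ≤ (1 + δ / 8) * y := by
    have := a1.2
    rw [sub_lt_iff_lt_add, div_lt_iff₀ hy0] at this
    linarith
  have b2 : (1 - δ / 8) * ((1 + δ) * y) ≤ Chebyshev.theta ((1 + δ) * y) := by
    have := a2.1
    rw [lt_sub_iff_add_lt, lt_div_iff₀ hy1'] at this
    linarith
  have b3 : δ / 2 * y ≤ Chebyshev.theta ((1 + δ) * y) - Chebyshev.theta y := by
    have : δ * (δ * y) ≤ 1 * (δ * y) := by gcongr
    nlinarith
  -- the sum over the cell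
  obtain ⟨S, hS⟩ : ∃ S, S = (PD j).filter (fun p : ℕ => y < p ∧ (p : ℝ) ≤ (1 + δ) * y) := ⟨_, rfl⟩
  have b4 : Chebyshev.theta ((1 + δ) * y) - Chebyshev.theta y ≤ ∑ p ∈ S, Real.log p := by
    have h1 : Chebyshev.theta ((1 + δ) * y) = ∑ p ∈ (Ioc 0 ⌊(1 + δ) * y⌋₊).filter Nat.Prime, Real.log p := rfl
    have h2 : Chebyshev.theta y = ∑ p ∈ (Ioc 0 ⌊y⌋₊).filter Nat.Prime, Real.log p := rfl
    have h3 : (Ioc 0 ⌊(1 + δ) * y⌋₊).filter Nat.Prime ⊆ (Ioc 0 ⌊y⌋₊).filter Nat.Prime ∪ S := by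
      intro p hp
      rw [mem_filter, mem_Ioc] at hp
      obtain ⟨⟨hp1, hp2⟩, hp3⟩ := hp
      rw [mem_union]
      by_cases h4 : p ≤ ⌊y⌋₊
      · left
        rw [mem_filter, mem_Ioc]
        exact ⟨⟨hp1, h4⟩, hp3⟩
      · right
        push Not at h4
        have h5 : y < p := (Nat.floor_lt hy0.le).1 h4
        have h6 : (p : ℝ) ≤ (1 + δ) * y := (Nat.le_floor_iff hy1'.le).1 hp2
        rw [hS, mem_filter]
        refine ⟨?_, h5, h6⟩
        unfold PD
        rw [mem_filter, mem_Ioc]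
        refine ⟨⟨?_, ?_⟩, hp3⟩
        · have h7 : ((2 ^ (j - 1) : ℕ) : ℝ) < p := by
            have h8 : (2 : ℝ) ^ j = 2 ^ (j - 1) * 2 := by
              rw [← pow_succ]
              congr 1
              omega
            push_cast
            linarith
          exact_mod_cast h7
        · have h7 : (p : ℝ) ≤ ((2 ^ j : ℕ) : ℝ) := by
            push_cast
            linarith
          exact_mod_cast h7
    have h4 : ∑ p ∈ (Ioc 0 ⌊(1 + δ) * y⌋₊).filter Nat.Prime, Real.log p ≤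
        ∑ p ∈ (Ioc 0 ⌊y⌋₊).filter Nat.Prime ∪ S, Real.log p :=
      sum_le_sum_of_subset_of_nonneg h3 fun p _ _ => Real.log_natCast_nonneg p
    have h5 : ∑ p ∈ (Ioc 0 ⌊y⌋₊).filter Nat.Prime ∪ S, Real.log p ≤
        ∑ p ∈ (Ioc 0 ⌊y⌋₊).filter Nat.Prime, Real.log p + ∑ p ∈ S, Real.log p := by
      rw [← sum_union_inter]
      have : 0 ≤ ∑ p ∈ (Ioc 0 ⌊y⌋₊).filter Nat.Prime ∩ S, Real.log (p : ℝ) := sum_nonneg fun p _ => Real.log_natCast_nonneg p
      linarith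
    rw [h1, h2]
    linarith
  have b5 : ∑ p ∈ S, Real.log p ≤ S.card * (j * Real.log 2) := by
    rw [← nsmul_eq_mul]
    refine sum_le_card_nsmul _ _ _ fun p hp => ?_
    rw [hS, mem_filter] at hp
    have h1 := Finset.mem_filter.1 hp.1
    have h2 := (Finset.mem_Ioc.1 h1.1).2
    have h3 : (0 : ℝ) < p := by exact_mod_cast h1.2.pos
    calc Real.log p ≤ Real.log (2 ^ j : ℝ) := Real.log_le_log h3 (by exact_mod_cast h2)
      _ = j * Real.log 2 := Real.log_pow _ _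
  -- the upper bound
  have b6 : (PD j).card * (((j : ℝ) - 1) * Real.log 2) ≤ C * 2 ^ j := by
    refine le_trans ?_ (hch j (by omega)).2
    rw [← nsmul_eq_mul]
    refine card_nsmul_le_sum _ _ _ fun p hp => ?_
    have h1 := Finset.mem_filter.1 hp
    have h2 := (Finset.mem_Ioc.1 h1.1).1
    have h4 : ((j : ℝ) - 1) = ((j - 1 : ℕ) : ℝ) := by rw [Nat.cast_sub (by omega)]; simp
    rw [h4, ← Real.log_pow]
    refine Real.log_le_log (by positivity) ?_
    have : ((2 ^ (j - 1) : ℕ) : ℝ) ≤ p := by exact_mod_cast h2.le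
    push_cast at this
    exact this
  rw [← hS]
  have h1 : δ / 4 * 2 ^ j ≤ S.card * (j * Real.log 2) := by
    have : δ / 2 * (2 ^ j / 2) ≤ δ / 2 * y := by gcongr
    linarith
  have hcard0 : (0 : ℝ) ≤ (PD j).card := by positivity
  have hS0 : (0 : ℝ) ≤ S.card := by positivity
  -- combine
  have h2 : (PD j).card * (j * Real.log 2) ≤ 2 * (C * 2 ^ j) := by
    have : (j : ℝ) ≤ 2 * (j - 1) := by linarith
    have h3 : (PD j).card * (j * Real.log 2) ≤ (PD j).card * (2 * (j - 1) * Real.log 2) := by gcongr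
    nlinarith
  have hjl : 0 < (j : ℝ) * Real.log 2 := by positivity
  have h3 : δ / (16 * C) * (PD j).card * (j * Real.log 2) ≤ S.card * (j * Real.log 2) := by
    calc δ / (16 * C) * (PD j).card * (j * Real.log 2) = δ / (16 * C) * ((PD j).card * (j * Real.log 2)) := by ring
      _ ≤ δ / (16 * C) * (2 * (C * 2 ^ j)) := by gcongr
      _ = δ / 8 * 2 ^ j := by field_simp; ring
      _ ≤ δ / 4 * 2 ^ j := by gcongr; norm_num
      _ ≤ _ := h1
  exact le_of_mul_le_mul_right h3 hjl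

end Pool.Agent.Q270.EW
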