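import Pool.Agent.Q270.EW.Ind
import Pool.Agent.Q270.EW.Pnt

/-!
Project EW (helper270): small lemmas for the main argument.
-/

set_option autoImplicit false

namespace Pool.Agent.Q270.EW

open Finset Filter Topology Pool.Agent.Q270.EA Pool.Agent.Q270.EB Pool.Agent.Q270.EC Pool.Agent.Q119.EA
open Pool.Agent.Q270.EV

variable {s k : ℕ}

lemma Rs_one : Rs s 1 = {0} := by
  ext r
  rw [mem_Rs, mem_singleton, funext_iff]
  simp

lemma zq_one (G : DatO s k) : zq G 1 0 = G.z := by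
  funext i
  unfold zq
  rw [bq_one]
  simp

lemma TT_one (G : DatO s k) (g : Fin k → ℕ → ℂ) (N : ℕ) : TT G g 1 N = AvN N (phiV (GZ G G.z) one g) := by
  unfold TT
  rw [Rs_one, sum_singleton, zq_one]
  simp

lemma VV_near (G : DatO s k) (g gt : Fin k → ℕ → ℂ) (hg1 : ∀ j n, ‖g j n‖ ≤ 1) (hgt1 : ∀ j n, ‖gt j n‖ ≤ 1)
    (τ : ℝ) (hτ : ∀ j n, ‖gt j n - g j n‖ ≤ τ) (hτ0 : 0 ≤ τ) (q p N : ℕ) (hq : 1 ≤ q) (hp : 1 ≤ p) :
    ‖VV G gt q p N - VV G g q p N‖ ≤ k * τ := by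
  have h1 : ∀ n : ℤ, ∀ X, ‖PsH G.a gt n X - PsH G.a g n X‖ ≤ k * τ := by
    intro n X
    unfold PsH
    have h9 := norm_prod_sub_le univ (fun j => gt j (lin (G.a j) n X).toNat)
      (fun j => g j (lin (G.a j) n X).toNat) (fun j _ => hgt1 _ _) (fun j _ => hg1 _ _)
      (fun j _ => hτ j _)
    rwa [card_univ, Fintype.card_fin] at h9
  have h2 : ∀ n : ℕ, ‖bav (PsH G.a gt n) (Uz G.α G.β n + ofs G q p) (p * q) -
      bav (PsH G.a g n) (Uz G.α G.β n + ofs G q p) (p * q)‖ ≤ k * τ := by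
    intro n
    have e1 : bav (PsH G.a gt n) (Uz G.α G.β n + ofs G q p) (p * q) -
      bav (PsH G.a g n) (Uz G.α G.β n + ofs G q p) (p * q) =
      bav (fun X => PsH G.a gt n X - PsH G.a g n X) (Uz G.α G.β n + ofs G q p) (p * q) := by
      unfold bav
      rw [sum_sub_distrib, sub_div]
    rw [e1]
    exact norm_bav _ _ _ (Nat.mul_pos hp hq) _ (h1 n)
  unfold VV
  rw [← mul_sub, ← sum_sub_distrib, norm_mul, norm_div, norm_one, Complex.norm_natCast]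
  rcases Nat.eq_zero_or_pos N with h0 | h0
  · subst h0
    simp
    positivity
  · have hN0 : (0 : ℝ) < N := by exact_mod_cast h0
    rw [div_mul_eq_mul_div, one_mul, div_le_iff₀ hN0]
    refine (norm_sum_le _ _).trans ((sum_le_sum fun n _ => h2 n).trans ?_)
    rw [sum_const, Nat.card_Icc, Nat.add_sub_cancel, nsmul_eq_mul, mul_comm]

lemma norm_VV (G : DatO s k) (g : Fin k → ℕ → ℂ) (hg1 : ∀ j n, ‖g j n‖ ≤ 1) (q p N : ℕ) (hq : 1 ≤ q) (hp : 1 ≤ p) :
    ‖VV G g q p N‖ ≤ 1 :=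
  norm_AvN_le (fun n => norm_bav _ _ _ (Nat.mul_pos hp hq) 1 (norm_PsH _ _ hg1 _)) N

/-- few elements with a large value -/
lemma markov (P : Finset ℕ) (D : ℕ → ℝ) (hD : ∀ p, 0 ≤ D p) (η η' : ℝ) (hη : 0 < η)
    (h : ∑ p ∈ P, D p ≤ η' * P.card) : ((P.filter (fun p => η < D p)).card : ℝ) * η ≤ η' * P.card := by
  refine le_trans ?_ h
  have h1 : ((P.filter (fun p => η < D p)).card : ℝ) * η ≤ ∑ p ∈ P.filter (fun p => η < D p), D p := by
    rw [← nsmul_eq_mul]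
    exact card_nsmul_le_sum _ _ _ fun p hp => (mem_filter.1 hp).2.le
  exact h1.trans (sum_le_sum_of_subset_of_nonneg (filter_subset _ _) fun p _ _ => hD p)

end Pool.Agent.Q270.EW
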